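import Pool.Agent.H95.NU.Step

/-!
# Upper bound, chains
-/

namespace Pool.Agent.H95.NU

open Finset

variable {K G g R L : ℕ} {s P : ℕ → ℕ}

theorem Tex.chain_mid (h : Tex K G g R L s P) (c : ℝ) (hc1 : mu G g ≤ c) (hc2 : (1 - uu G g) / 2 ≤ c)
    (E : Finset (ℕ × ℕ)) : IsCh (K * L) (wd K G g L s P) E → (∀ e ∈ E, ar K L e.1 ≠ ar K L e.2) →
    E.Nonempty → ∃ e0 ∈ E, ∃ e1 ∈ E, (∀ e ∈ E, e.1 ≤ e1.1) ∧ e0.1 ≤ e1.1 ∧ e1.2 ≤ e0.2 ∧
      (E.card : ℝ) ≤ 1 + c * (((e1.1 : ℝ) - e0.1) + ((e0.2 : ℝ) - e1.2)) +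
        Psi K G g L s P e1.1 e1.2 - Psi K G g L s P e0.1 e0.2 +
        (AA K G g R L s P e1.1 - AA K G g R L s P e0.1) +
        (AA K G g R L s P e0.2 - AA K G g R L s P e1.2) := by
  refine Finset.induction_on_max_value (Prod.fst : ℕ × ℕ → ℕ) E ?_ ?_
  · intro _ _ hne; exact absurd hne Finset.not_nonempty_empty
  · intro a E ha hmax ih hch hmid _
    rcases E.eq_empty_or_nonempty with hE | hE
    · subst hE
      refine ⟨a, by simp, a, by simp, by simp, le_rfl, le_rfl, ?_⟩
      simp
    · obtain ⟨e0, he0, e1, he1, hm, h01, h10, hb⟩ := ih (hch.subset (Finset.subset_insert _ _))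
        (fun e he => hmid e (mem_insert_of_mem he)) hE
      have hne : e1 ≠ a := fun hh => ha (hh ▸ he1)
      have hlt := hch.nest e1 (mem_insert_of_mem he1) a (mem_insert_self _ _) hne
      have hle := hmax e1 he1
      have hlt' : e1.1 < a.1 ∧ a.2 < e1.2 := by
        rcases hlt with h1 | h1
        · exact h1
        · exact absurd h1.1 (by exact not_lt.mpr hle)
      have hst := h.step hlt'.1 hlt'.2 (hch.alt a (mem_insert_self _ _)) (hmid a (mem_insert_self _ _)) c hc1 hc2
      refine ⟨e0, mem_insert_of_mem he0, a, mem_insert_self _ _, ?_, ?_, ?_, ?_⟩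
      · intro e he
        rcases mem_insert.mp he with rfl | he
        · exact le_rfl
        · exact hmax e he
      · omega
      · omega
      · rw [card_insert_of_notMem ha]
        push_cast
        linarith

theorem Tex.chain_same (h : Tex K G g R L s P) (w : ℕ → Bool)
    (E : Finset (ℕ × ℕ)) (hE : IsCh (K * L) w E) (hs : ∀ e ∈ E, ar K L e.1 = ar K L e.2) :
    E.card ≤ 2 * L := by
  have hL := h.hL
  have hK := h.hK
  have hinj : Set.InjOn (fun e : ℕ × ℕ => e.2 - e.1) E := by
    intro e he e' he' heq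
    by_contra hne
    have h1 := hE.lt e he
    have h2 := hE.lt e' he'
    have heq' : e.2 - e.1 = e'.2 - e'.1 := heq
    rcases hE.nest e he e' he' hne with h3 | h3 <;> omega
  have hmaps : ∀ e ∈ E, e.2 - e.1 ∈ range L ∪ Ico (K * L - L + 1) (K * L) := by
    intro e he
    have h1 := hE.lt e he
    have h2 := hE.lt' e he
    have h3 := hs e he
    unfold ar at h3
    have a1 := Nat.div_add_mod' e.1 L
    have a2 := Nat.div_add_mod' e.2 L
    have b1 := Nat.mod_lt e.1 hL
    have b2 := Nat.mod_lt e.2 hL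
    have c1 : e.1 / L ≤ e.2 / L := Nat.div_le_div_right h1.le
    have c2 : e.2 / L ≤ e.1 / L + K := by
      have : e.2 / L ≤ (e.1 + K * L) / L := Nat.div_le_div_right h2.le
      rwa [Nat.add_mul_div_right _ _ hL] at this
    obtain ⟨d, hd⟩ : ∃ d, e.2 / L = e.1 / L + d := ⟨e.2 / L - e.1 / L, by omega⟩
    have hdK : d ≤ K := by omega
    have hd2 : d = 0 ∨ d = K := by
      rw [hd] at h3
      rcases Nat.eq_zero_or_pos d with h0 | h0
      · left; exact h0
      · right
        by_contra hne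
        have hlt : d < K := by omega
        have h4 : (e.1 / L + 0) ≡ (e.1 / L + d) [MOD K] := h3
        have h5 := Nat.ModEq.add_left_cancel' _ h4
        have h6 : 0 % K = d % K := h5
        rw [Nat.zero_mod, Nat.mod_eq_of_lt hlt] at h6
        omega
    rw [mem_union, mem_range, mem_Ico]
    rcases hd2 with rfl | rfl
    · left
      rw [add_zero] at hd
      rw [hd] at a2
      omega
    · right
      have e1 : (e.1 / L + d) * L = e.1 / L * L + d * L := by ring
      rw [hd, e1] at a2
      have e2 : L ≤ d * L := Nat.le_mul_of_pos_left _ hK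
      omega
  have h1 := Finset.card_le_card_of_injOn _ hmaps hinj
  refine h1.trans ((card_union_le _ _).trans ?_)
  rw [card_range, Nat.card_Ico]
  omega

theorem Tex.chain_bound (h : Tex K G g R L s P) (c : ℝ) (hc1 : mu G g ≤ c) (hc2 : (1 - uu G g) / 2 ≤ c)
    (E : Finset (ℕ × ℕ)) (hE : IsCh (K * L) (wd K G g L s P) E) (hE2 : ∀ e ∈ E, e.2 ≤ 2 * (K * L)) :
    (E.card : ℝ) ≤ 1 + c * (K * L) + (16 * K + 20) * (K * L) / R + 2 * L := by
  classical
  have hm := h.mu_pos
  have hc0 : 0 < c := lt_of_lt_of_le hm hc1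
  have hR : (0 : ℝ) < R := by exact_mod_cast h.hR
  have hL0 : (0 : ℝ) < L := by exact_mod_cast h.hL
  have hK0 : (0 : ℝ) < K := by exact_mod_cast h.hK
  have hK1 : (1 : ℝ) ≤ K := by exact_mod_cast h.hK
  have hsplit : (E.filter fun e => ar K L e.1 = ar K L e.2).card +
      (E.filter fun e => ¬ ar K L e.1 = ar K L e.2).card = E.card :=
    Finset.card_filter_add_card_filter_not _
  have h1 := h.chain_same _ (E.filter fun e => ar K L e.1 = ar K L e.2)
    (hE.subset (Finset.filter_subset _ _)) (fun e he => (mem_filter.mp he).2)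
  have h1' : ((E.filter fun e => ar K L e.1 = ar K L e.2).card : ℝ) ≤ 2 * L := by exact_mod_cast h1
  set F := E.filter fun e => ¬ ar K L e.1 = ar K L e.2 with hF
  have h2 : (F.card : ℝ) ≤ 1 + c * (K * L) + (16 * K + 20) * (K * L) / R := by
    rcases F.eq_empty_or_nonempty with hF0 | hF0
    · rw [hF0, card_empty]
      push_cast
      positivity
    · have hFch := hE.subset (Finset.filter_subset (fun e => ¬ ar K L e.1 = ar K L e.2) E)
      obtain ⟨e0, he0, e1, he1, _, h01, h10, hb⟩ := h.chain_mid c hc1 hc2 F hFch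
        (fun e he => (mem_filter.mp he).2) hF0
      have a0 := hFch.lt' e0 he0
      have a1 := hFch.lt e1 he1
      have a2 := hE2 e0 (Finset.filter_subset _ _ he0)
      have b1 := h.AA_total a2
      have b2 := AA_nonneg (K := K) (G := G) (g := g) (R := R) (L := L) (s := s) (P := P) e0.1
      have b3 := AA_mono (K := K) (G := G) (g := g) (R := R) (L := L) (s := s) (P := P) a1.le
      have p0 := h.Psi_le e0.1 e0.2
      have p1 := h.Psi_le e1.1 e1.2
      rw [abs_le] at p0 p1
      have hPL : (R : ℝ) * P 0 ≤ L := by exact_mod_cast h.PL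
      have hP0 : (P 0 : ℝ) ≤ K * L / R := by
        rw [le_div_iff₀ hR]
        nlinarith
      have q1 : c * (((e1.1 : ℝ) - e0.1) + ((e0.2 : ℝ) - e1.2)) ≤ c * (K * L) := by
        apply mul_le_mul_of_nonneg_left _ hc0.le
        have r1 : (e1.1 : ℝ) < e1.2 := by exact_mod_cast a1
        have r2 : (e0.2 : ℝ) < e0.1 + K * L := by exact_mod_cast a0
        linarith
      have e6 : (16 * K + 20 : ℝ) * (K * L) / R = (16 * K + 14) * (K * L) / R + 6 * (K * L / R) := by ring
      rw [e6]
      linarith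
  have h3 : (E.card : ℝ) = ((E.filter fun e => ar K L e.1 = ar K L e.2).card : ℝ) + (F.card : ℝ) := by
    exact_mod_cast hsplit.symm
  rw [h3]
  linarith

end Pool.Agent.H95.NU
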