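import Pool.Agent.H95.NU.Defs

/-!
# Upper bound, from a noncrossing alternating path to a nested chain
-/

namespace Pool.Agent.H95.NU

open Finset

/-- a noncrossing path through points of a circle, `V i` = positions in one turn starting at `V 0` -/
structure Zig (T k : ℕ) (w : ℕ → Bool) (pt : ℕ → ℂ) (V : ℕ → ℕ) : Prop where
  per : ∀ z, pt (z + T) = pt z
  cross : ∀ a c b d, a < c → c < b → b < d → d < a + T →
    ∃ z, z ∈ segment ℝ (pt a) (pt b) ∧ z ∈ segment ℝ (pt c) (pt d)
  lo : ∀ i, 1 ≤ i → i < k → V 0 < V i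
  hi : ∀ i, 1 ≤ i → i < k → V i < V 0 + T
  inj : ∀ i j, i < k → j < k → V i = V j → i = j
  alt : ∀ i, i + 1 < k → w (V i) ≠ w (V (i + 1))
  nc : ∀ i j, i + 2 ≤ j → j + 1 < k → ∀ z, z ∈ segment ℝ (pt (V i)) (pt (V (i + 1))) →
    z ∉ segment ℝ (pt (V j)) (pt (V (j + 1)))

/-- the state of the path at time `i`: all later vertices lie between `A` and `B` -/
structure St (T k : ℕ) (pt : ℕ → ℂ) (V : ℕ → ℕ) (i A B : ℕ) : Prop where
  pt' : pt (V i) = pt A ∨ pt (V i) = pt B
  loA : V 0 ≤ A
  hiB : B ≤ V 0 + T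
  AB : A < B
  bet : ∀ j, i < j → j < k → A < V j ∧ V j < B

theorem Zig.step {T k : ℕ} {w : ℕ → Bool} {pt : ℕ → ℂ} {V : ℕ → ℕ} (h : Zig T k w pt V)
    {i A B : ℕ} (hi : i + 1 < k) (hs : St T k pt V i A B) :
    St T k pt V (i + 1) (V (i + 1)) B ∨ St T k pt V (i + 1) A (V (i + 1)) := by
  obtain ⟨b1, b2⟩ := hs.bet (i + 1) (by omega) hi
  have hAT : B ≤ A + T := by have := hs.loA; have := hs.hiB; omega
  by_cases hk : k ≤ i + 2
  · left
    exact ⟨Or.inl rfl, hs.loA.trans b1.le, hs.hiB, b2, fun j h1 h2 => by omega⟩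
  · have hk' : i + 2 < k := by omega
    -- no crossing
    have nc1 : ∀ j, i + 2 ≤ j → j + 1 < k → ¬ (V j < V (i + 1) ∧ V (i + 1) < V (j + 1)) := by
      intro j hj1 hj2 hcon
      obtain ⟨c1, c2⟩ := hs.bet j (by omega) (by omega)
      obtain ⟨d1, d2⟩ := hs.bet (j + 1) (by omega) hj2
      rcases hs.pt' with hp | hp
      · obtain ⟨z, hz1, hz2⟩ := h.cross A (V j) (V (i + 1)) (V (j + 1)) c1 hcon.1 hcon.2 (by omega)
        rw [← hp] at hz1
        exact h.nc i j hj1 hj2 z hz1 hz2
      · obtain ⟨z, hz1, hz2⟩ := h.cross (V (i + 1)) (V (j + 1)) B (V j + T) hcon.2 d2 (by omega) (by omega)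
        rw [← hp] at hz1
        rw [h.per] at hz2
        rw [segment_symm] at hz1 hz2
        exact h.nc i j hj1 hj2 z hz1 hz2
    have nc2 : ∀ j, i + 2 ≤ j → j + 1 < k → ¬ (V (j + 1) < V (i + 1) ∧ V (i + 1) < V j) := by
      intro j hj1 hj2 hcon
      obtain ⟨c1, c2⟩ := hs.bet j (by omega) (by omega)
      obtain ⟨d1, d2⟩ := hs.bet (j + 1) (by omega) hj2
      rcases hs.pt' with hp | hp
      · obtain ⟨z, hz1, hz2⟩ := h.cross A (V (j + 1)) (V (i + 1)) (V j) d1 hcon.1 hcon.2 (by omega)
        rw [← hp] at hz1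
        rw [segment_symm] at hz2
        exact h.nc i j hj1 hj2 z hz1 hz2
      · obtain ⟨z, hz1, hz2⟩ := h.cross (V (i + 1)) (V j) B (V (j + 1) + T) hcon.2 c2 (by omega) (by omega)
        rw [← hp] at hz1
        rw [h.per] at hz2
        rw [segment_symm] at hz1
        exact h.nc i j hj1 hj2 z hz1 hz2
    have hne : ∀ j, i + 2 ≤ j → j < k → V j ≠ V (i + 1) := by
      intro j hj1 hj2 he
      have := h.inj j (i + 1) hj2 hi he
      omega
    rcases Nat.lt_or_gt_of_ne (hne (i + 2) le_rfl hk') with hlt | hgt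
    · right
      have all : ∀ j, i + 2 ≤ j → j < k → V j < V (i + 1) := by
        intro j hj
        induction j, hj using Nat.le_induction with
        | base => intro _; exact hlt
        | succ j hj ih =>
          intro hj2
          have h1 := ih (by omega)
          rcases Nat.lt_or_gt_of_ne (hne (j + 1) (by omega) hj2) with h2 | h2
          · exact h2
          · exact absurd ⟨h1, h2⟩ (nc1 j hj hj2)
      exact ⟨Or.inr rfl, hs.loA, b2.le.trans hs.hiB, b1,
        fun j h1 h2 => ⟨(hs.bet j (by omega) h2).1, all j (by omega) h2⟩⟩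
    · left
      have all : ∀ j, i + 2 ≤ j → j < k → V (i + 1) < V j := by
        intro j hj
        induction j, hj using Nat.le_induction with
        | base => intro _; exact hgt
        | succ j hj ih =>
          intro hj2
          have h1 := ih (by omega)
          rcases Nat.lt_or_gt_of_ne (hne (j + 1) (by omega) hj2) with h2 | h2
          · exact absurd ⟨h2, h1⟩ (nc2 j hj hj2)
          · exact h2
      exact ⟨Or.inl rfl, hs.loA.trans b1.le, hs.hiB, b2,
        fun j h1 h2 => ⟨all j (by omega) h2, (hs.bet j (by omega) h2).2⟩⟩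

theorem Zig.main {T k : ℕ} {w : ℕ → Bool} {pt : ℕ → ℂ} {V : ℕ → ℕ} (h : Zig T k w pt V) (hT : 0 < T)
    (hk : 0 < k) (β : ℕ → ℕ) (hβ : Monotone β) (hβ2 : ∀ z z', z < z' → w z ≠ w z' → β z < β z') :
    ∀ j, 2 * j < k → ∃ A B, ∃ E : Finset (ℕ × ℕ), St T k pt V (2 * j) A B ∧ IsCh T w E ∧
      (∀ e ∈ E, e.1 ≤ A ∧ B ≤ e.2) ∧ (∀ e ∈ E, e.2 ≤ V 0 + T) ∧
      j + β (V 0) + β B ≤ E.card + β A + β (V 0 + T) := by
  intro j
  induction j with
  | zero =>
    intro _
    refine ⟨V 0, V 0 + T, ∅, ⟨Or.inl rfl, le_rfl, le_rfl, by omega, ?_⟩, ?_, by simp, by simp, by simp⟩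
    · intro j h1 h2
      exact ⟨h.lo j (by omega) h2, h.hi j (by omega) h2⟩
    · exact ⟨by simp, by simp, by simp, by simp⟩
  | succ j ih =>
    intro hj
    obtain ⟨A, B, E, hs, hE, hAB, hE2, hcnt⟩ := ih (by omega)
    have e2 : 2 * (j + 1) = 2 * j + 1 + 1 := by ring
    have hv1 := hs.bet (2 * j + 1) (by omega) (by omega)
    have halt := h.alt (2 * j + 1) (by omega)
    rw [e2]
    -- adding a pair
    have add : ∀ a b, A < a → a < b → b < B → w a ≠ w b →
        ((insert (a, b) E).card = E.card + 1) ∧ IsCh T w (insert (a, b) E) ∧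
        (∀ e ∈ insert (a, b) E, e.1 ≤ a ∧ b ≤ e.2) ∧ (∀ e ∈ insert (a, b) E, e.2 ≤ V 0 + T) := by
      intro a b h1 h2 h3 h4
      have hni : (a, b) ∉ E := by
        intro hmem
        have := (hAB _ hmem).1
        simp only at this
        omega
      have hlo := hs.loA
      have hhi := hs.hiB
      refine ⟨card_insert_of_notMem hni, ⟨?_, ?_, ?_, ?_⟩, ?_, ?_⟩
      · intro e he
        rcases mem_insert.mp he with rfl | he
        · exact h2
        · exact hE.lt e he
      · intro e he
        rcases mem_insert.mp he with rfl | he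
        · show b < a + T
          omega
        · exact hE.lt' e he
      · intro e he
        rcases mem_insert.mp he with rfl | he
        · exact h4
        · exact hE.alt e he
      · intro e he e' he' hne
        rcases mem_insert.mp he with rfl | he
        · rcases mem_insert.mp he' with rfl | he'
          · exact absurd rfl hne
          · right
            have := hAB e' he'
            exact ⟨by show e'.1 < a; omega, by show b < e'.2; omega⟩
        · rcases mem_insert.mp he' with rfl | he'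
          · left
            have := hAB e he
            exact ⟨by show e.1 < a; omega, by show b < e.2; omega⟩
          · exact hE.nest e he e' he' hne
      · intro e he
        rcases mem_insert.mp he with rfl | he
        · exact ⟨le_rfl, le_rfl⟩
        · have := hAB e he
          omega
      · intro e he
        rcases mem_insert.mp he with rfl | he
        · show b ≤ V 0 + T
          omega
        · exact hE2 e he
    rcases h.step (by omega : 2 * j + 1 < k) hs with hs1 | hs1
    · -- `A' = v1`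
      have hv2 := hs1.bet (2 * j + 1 + 1) (by omega) (by omega)
      have mA := hβ hv1.1.le
      rcases h.step (by omega : 2 * j + 1 + 1 < k) hs1 with hs2 | hs2
      · -- same type
        refine ⟨_, _, E, hs2, hE, ?_, hE2, ?_⟩
        · intro e he
          have := hAB e he
          omega
        · have := hβ2 _ _ hv2.1 halt
          omega
      · obtain ⟨a1, a2, a3, a4⟩ := add (V (2 * j + 1)) (V (2 * j + 1 + 1)) hv1.1 hv2.1 hv2.2 halt
        refine ⟨_, _, _, hs2, a2, a3, a4, ?_⟩
        rw [a1]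
        have := hβ hv2.2.le
        omega
    · -- `B' = v1`
      have hv2 := hs1.bet (2 * j + 1 + 1) (by omega) (by omega)
      have mB := hβ hv1.2.le
      rcases h.step (by omega : 2 * j + 1 + 1 < k) hs1 with hs2 | hs2
      · obtain ⟨a1, a2, a3, a4⟩ := add (V (2 * j + 1 + 1)) (V (2 * j + 1)) hv2.1 hv2.2 hv1.2 halt.symm
        refine ⟨_, _, _, hs2, a2, a3, a4, ?_⟩
        rw [a1]
        have := hβ hv2.1.le
        omega
      · refine ⟨_, _, E, hs2, hE, ?_, hE2, ?_⟩
        · intro e he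
          have := hAB e he
          omega
        · have := hβ2 _ _ hv2.2 halt.symm
          omega

theorem Zig.bound {T k : ℕ} {w : ℕ → Bool} {pt : ℕ → ℂ} {V : ℕ → ℕ} (h : Zig T k w pt V) (hT : 0 < T)
    (hk : 0 < k) (β : ℕ → ℕ) (C : ℕ) (hβ : Monotone β) (hβ2 : ∀ z z', z < z' → w z ≠ w z' → β z < β z')
    (hβT : ∀ z, β (z + T) = β z + C) :
    ∃ E : Finset (ℕ × ℕ), IsCh T w E ∧ (∀ e ∈ E, e.2 ≤ V 0 + T) ∧ k ≤ 2 * E.card + 2 * C + 2 := by
  obtain ⟨A, B, E, hs, hE, hAB, hE2, hcnt⟩ := h.main hT hk β hβ hβ2 ((k - 1) / 2) (by omega)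
  refine ⟨E, hE, hE2, ?_⟩
  have h1 := hβ hs.AB.le
  rw [hβT] at hcnt
  omega

end Pool.Agent.H95.NU
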