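import Pool.Agent.H95.NU.Cross
import Pool.Agent.H95.NU.Zig
import Pool.Agent.H95.NP.GeoD

/-!
# Upper bound, the configuration
-/

namespace Pool.Agent.H95.NU

open Finset Pool.Agent.H95.NP

/-- the `z`-th point of the regular `2n`-gon -/
noncomputable def rp (n z : ℕ) : ℂ := circ 0 1 (Real.pi * z / n)

theorem rp_per {n : ℕ} (hn : 0 < n) (z : ℕ) : rp n (z + 2 * n) = rp n z := by
  unfold rp
  rw [← circ_period 0 1 (Real.pi * z / n)]
  congr 1
  have : (n : ℝ) ≠ 0 := by
    have : (0 : ℝ) < n := by exact_mod_cast hn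
    exact this.ne'
  push_cast
  field_simp

theorem rp_angle {n : ℕ} (hn : 0 < n) {a b : ℕ} (h : a < b) : Real.pi * a / n < Real.pi * b / n := by
  have h1 : (0 : ℝ) < n := by exact_mod_cast hn
  have h2 : (a : ℝ) < b := by exact_mod_cast h
  exact div_lt_div_of_pos_right (mul_lt_mul_of_pos_left h2 Real.pi_pos) h1

theorem rp_angle' {n : ℕ} (hn : 0 < n) {a b : ℕ} (h : b < a + 2 * n) :
    Real.pi * b / n < Real.pi * a / n + 2 * Real.pi := by
  have h1 := rp_angle hn h
  have h3 : (n : ℝ) ≠ 0 := by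
    have : (0 : ℝ) < n := by exact_mod_cast hn
    exact this.ne'
  have h2 : Real.pi * ((a + 2 * n : ℕ) : ℝ) / n = Real.pi * a / n + 2 * Real.pi := by
    push_cast
    field_simp
  rw [h2] at h1
  exact h1

theorem rp_inj {n : ℕ} (hn : 0 < n) {a b : ℕ} (ha : a < 2 * n) (hb : b < 2 * n) (h : rp n a = rp n b) :
    a = b := by
  rcases Nat.lt_trichotomy a b with h1 | h1 | h1
  · exact absurd h (GeoD_ne 0 1 _ _ one_pos (rp_angle hn h1) (rp_angle' hn (by omega)))
  · exact h1
  · exact absurd h.symm (GeoD_ne 0 1 _ _ one_pos (rp_angle hn h1) (rp_angle' hn (by omega)))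

theorem config (n : ℕ) (hn : 0 < n) (w : ℕ → Bool) (hper : ∀ z, w (z + 2 * n) = w z)
    (hcount : ((range (2 * n)).filter fun z => w z = true).card = n) (β : ℕ → ℕ) (C : ℕ)
    (hβ : Monotone β) (hβT : ∀ z, β (z + 2 * n) = β z + C)
    (hβ2 : ∀ z z', z < z' → w z ≠ w z' → β z < β z') :
    ∃ R B : Finset ℂ, R.card = n ∧ B.card = n ∧ Disjoint R B ∧ (∀ z ∈ R ∪ B, ‖z - 0‖ = 1) ∧
      ∀ (k : ℕ) (p : ℕ → ℂ), (∀ i, i < k → p i ∈ R ∪ B) →
        (∀ i j, i < k → j < k → p i = p j → i = j) →
        (∀ i, i + 1 < k → (p i ∈ R ∧ p (i + 1) ∈ B) ∨ (p i ∈ B ∧ p (i + 1) ∈ R)) →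
        (∀ i j, i < j → j + 1 < k → ∀ z, z ∈ segment ℝ (p i) (p (i + 1)) →
          z ∈ segment ℝ (p j) (p (j + 1)) → j = i + 1 ∧ z = p j) →
        ∃ E : Finset (ℕ × ℕ), IsCh (2 * n) w E ∧ (∀ e ∈ E, e.2 ≤ 2 * (2 * n)) ∧
          k ≤ 2 * E.card + 2 * C + 2 := by
  classical
  have hinj : Set.InjOn (rp n) (range (2 * n) : Finset ℕ) := by
    intro a ha b hb h
    exact rp_inj hn (mem_range.mp ha) (mem_range.mp hb) h
  have hsum : ((range (2 * n)).filter fun z => w z = true).card +
      ((range (2 * n)).filter fun z => ¬ w z = true).card = (range (2 * n)).card :=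
    Finset.card_filter_add_card_filter_not _
  rw [hcount, card_range] at hsum
  set R := ((range (2 * n)).filter fun z => w z = true).image (rp n) with hR
  set B := ((range (2 * n)).filter fun z => ¬ w z = true).image (rp n) with hB
  have memR : ∀ v, v < 2 * n → (rp n v ∈ R ↔ w v = true) := by
    intro v hv
    rw [hR, mem_image]
    constructor
    · rintro ⟨z, hz, hzv⟩
      rw [mem_filter, mem_range] at hz
      rw [← rp_inj hn hz.1 hv hzv]
      exact hz.2
    · intro h
      exact ⟨v, mem_filter.mpr ⟨mem_range.mpr hv, h⟩, rfl⟩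
  have memB : ∀ v, v < 2 * n → (rp n v ∈ B ↔ ¬ w v = true) := by
    intro v hv
    rw [hB, mem_image]
    constructor
    · rintro ⟨z, hz, hzv⟩
      rw [mem_filter, mem_range] at hz
      rw [← rp_inj hn hz.1 hv hzv]
      exact hz.2
    · intro h
      exact ⟨v, mem_filter.mpr ⟨mem_range.mpr hv, h⟩, rfl⟩
  have ex : ∀ z ∈ R ∪ B, ∃ v, v < 2 * n ∧ rp n v = z := by
    intro z hz
    rcases mem_union.mp hz with h | h
    · obtain ⟨v, hv, rfl⟩ := mem_image.mp h
      exact ⟨v, mem_range.mp (mem_filter.mp hv).1, rfl⟩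
    · obtain ⟨v, hv, rfl⟩ := mem_image.mp h
      exact ⟨v, mem_range.mp (mem_filter.mp hv).1, rfl⟩
  refine ⟨R, B, ?_, ?_, ?_, ?_, ?_⟩
  · rw [hR, Finset.card_image_of_injOn (hinj.mono (by exact_mod_cast Finset.filter_subset _ _)), hcount]
  · rw [hB, Finset.card_image_of_injOn (hinj.mono (by exact_mod_cast Finset.filter_subset _ _))]
    omega
  · rw [Finset.disjoint_left]
    intro z hz hz'
    obtain ⟨v, hv, rfl⟩ := ex z (mem_union_left _ hz)
    exact (memB v hv).mp hz' ((memR v hv).mp hz)
  · intro z hz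
    obtain ⟨v, _, rfl⟩ := ex z hz
    rw [sub_zero]
    exact circ_norm _
  · intro k p hmem hpinj halt hnc
    rcases Nat.eq_zero_or_pos k with hk | hk
    · exact ⟨∅, ⟨by simp, by simp, by simp, by simp⟩, by simp, by omega⟩
    have ex' : ∀ i, ∃ v, i < k → (v < 2 * n ∧ rp n v = p i) := by
      intro i
      by_cases hi : i < k
      · obtain ⟨v, hv⟩ := ex _ (hmem i hi)
        exact ⟨v, fun _ => hv⟩
      · exact ⟨0, fun h => absurd h hi⟩
    choose v hv using ex'
    set V : ℕ → ℕ := fun i => if v i < v 0 then v i + 2 * n else v i with hV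
    have hV0 : V 0 = v 0 := by simp [hV]
    have hVp : ∀ i, i < k → rp n (V i) = p i := by
      intro i hi
      show rp n (if v i < v 0 then v i + 2 * n else v i) = p i
      split_ifs
      · rw [rp_per hn]; exact (hv i hi).2
      · exact (hv i hi).2
    have hVw : ∀ i, w (V i) = w (v i) := by
      intro i
      show w (if v i < v 0 then v i + 2 * n else v i) = w (v i)
      split_ifs
      · exact hper _
      · rfl
    have hvne : ∀ i, 1 ≤ i → i < k → v i ≠ v 0 := by
      intro i h1 h2 he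
      have e1 := (hv i h2).2
      have e2 := (hv 0 hk).2
      rw [he, e2] at e1
      have := hpinj 0 i hk h2 e1
      omega
    have hR' : ∀ i, i < k → p i ∈ R → w (v i) = true := by
      intro i hi h
      rw [← (hv i hi).2] at h
      exact (memR _ (hv i hi).1).mp h
    have hB' : ∀ i, i < k → p i ∈ B → ¬ w (v i) = true := by
      intro i hi h
      rw [← (hv i hi).2] at h
      exact (memB _ (hv i hi).1).mp h
    have hz : Zig (2 * n) k w (rp n) V := by
      refine ⟨rp_per hn, ?_, ?_, ?_, ?_, ?_, ?_⟩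
      · intro a c b d h1 h2 h3 h4
        exact cross_chords _ _ _ _ (rp_angle hn h1) (rp_angle hn h2) (rp_angle hn h3) (rp_angle' hn h4)
      · intro i h1 h2
        rw [hV0]
        have := hvne i h1 h2
        show v 0 < if v i < v 0 then v i + 2 * n else v i
        have := (hv 0 hk).1
        split_ifs <;> omega
      · intro i h1 h2
        rw [hV0]
        have := (hv i h2).1
        show (if v i < v 0 then v i + 2 * n else v i) < v 0 + 2 * n
        split_ifs <;> omega
      · intro i j hi hj he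
        apply hpinj i j hi hj
        rw [← hVp i hi, ← hVp j hj, he]
      · intro i hi
        rw [hVw, hVw]
        intro he
        rcases halt i hi with ⟨h1, h2⟩ | ⟨h1, h2⟩
        · have a1 := hR' i (by omega) h1
          have a2 := hB' (i + 1) hi h2
          rw [he] at a1
          exact a2 a1
        · have a1 := hB' i (by omega) h1
          have a2 := hR' (i + 1) hi h2
          rw [he] at a1
          exact a1 a2
      · intro i j hij hj z hz1 hz2
        rw [hVp i (by omega), hVp (i + 1) (by omega)] at hz1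
        rw [hVp j (by omega), hVp (j + 1) hj] at hz2
        have := (hnc i j (by omega) hj z hz1 hz2).1
        omega
    obtain ⟨E, hE, hE2, hb⟩ := hz.bound (by omega) hk β C hβ hβ2 hβT
    refine ⟨E, hE, fun e he => ?_, hb⟩
    have h1 := hE2 e he
    have h2 := (hv 0 hk).1
    rw [hV0] at h1
    omega

end Pool.Agent.H95.NU
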