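import Pool.Agent.H95.NU.Zero

/-!
# Upper bound, the cost function
-/

namespace Pool.Agent.H95.NU

open Finset

variable {K G g R L : ℕ} {s P : ℕ → ℕ}

/-- the `i`-th summand of `AA` -/
noncomputable def TT (G g R : ℕ) (s P : ℕ → ℕ) (i z : ℕ) : ℝ :=
  (2 * G * s i / R : ℝ) *
      (((z / (G * s i) : ℕ) : ℝ) + (((z + (G - g) * s i) / (G * s i) : ℕ) : ℝ)) +
    (4 * P i / R : ℝ) * ((z / P i : ℕ) : ℝ)

theorem AA_eq (z : ℕ) : AA K G g R L s P z = (∑ i ∈ range K, TT G g R s P i z) + 6 * P 0 * ((z / L : ℕ) : ℝ) :=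
  rfl

theorem TT_mono (i : ℕ) {p q : ℕ} (hpq : p ≤ q) : TT G g R s P i p ≤ TT G g R s P i q := by
  unfold TT
  have h1 : ((p / (G * s i) : ℕ) : ℝ) ≤ ((q / (G * s i) : ℕ) : ℝ) := by
    exact_mod_cast Nat.div_le_div_right hpq
  have h2 : (((p + (G - g) * s i) / (G * s i) : ℕ) : ℝ) ≤ (((q + (G - g) * s i) / (G * s i) : ℕ) : ℝ) := by
    exact_mod_cast Nat.div_le_div_right (by omega)
  have h3 : ((p / P i : ℕ) : ℝ) ≤ ((q / P i : ℕ) : ℝ) := by
    exact_mod_cast Nat.div_le_div_right hpq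
  have c1 : (0 : ℝ) ≤ 2 * G * s i / R := by positivity
  have c2 : (0 : ℝ) ≤ 4 * P i / R := by positivity
  have := mul_le_mul_of_nonneg_left (add_le_add h1 h2) c1
  have := mul_le_mul_of_nonneg_left h3 c2
  linarith

theorem AA_mono {p q : ℕ} (hpq : p ≤ q) : AA K G g R L s P p ≤ AA K G g R L s P q := by
  rw [AA_eq, AA_eq]
  have h1 := Finset.sum_le_sum fun i (_ : i ∈ range K) => TT_mono (G := G) (g := g) (R := R) (s := s) (P := P) i hpq
  have h3 : ((p / L : ℕ) : ℝ) ≤ ((q / L : ℕ) : ℝ) := by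
    exact_mod_cast Nat.div_le_div_right hpq
  have c2 : (0 : ℝ) ≤ 6 * P 0 := by positivity
  have := mul_le_mul_of_nonneg_left h3 c2
  linarith

theorem AA_nonneg (z : ℕ) : 0 ≤ AA K G g R L s P z := by
  unfold AA
  positivity

theorem AA_single {p q i : ℕ} (hpq : p ≤ q) (hi : i < K) :
    TT G g R s P i q - TT G g R s P i p ≤ AA K G g R L s P q - AA K G g R L s P p := by
  rw [AA_eq, AA_eq]
  have h1 : TT G g R s P i q - TT G g R s P i p ≤
      ∑ i ∈ range K, (TT G g R s P i q - TT G g R s P i p) :=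
    Finset.single_le_sum (f := fun i => TT G g R s P i q - TT G g R s P i p)
      (fun i _ => sub_nonneg.mpr (TT_mono i hpq)) (mem_range.mpr hi)
  rw [Finset.sum_sub_distrib] at h1
  have h3 : ((p / L : ℕ) : ℝ) ≤ ((q / L : ℕ) : ℝ) := by
    exact_mod_cast Nat.div_le_div_right hpq
  have c2 : (0 : ℝ) ≤ 6 * P 0 := by positivity
  have := mul_le_mul_of_nonneg_left h3 c2
  linarith

theorem AA_arc {p q : ℕ} (hpq : p ≤ q) (h : p / L ≠ q / L) :
    6 * (P 0 : ℝ) ≤ AA K G g R L s P q - AA K G g R L s P p := by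
  rw [AA_eq, AA_eq]
  have h1 := Finset.sum_le_sum fun i (_ : i ∈ range K) => TT_mono (G := G) (g := g) (R := R) (s := s) (P := P) i hpq
  have h2 : p / L + 1 ≤ q / L := by
    have := Nat.div_le_div_right (c := L) hpq
    omega
  have h3 : ((p / L : ℕ) : ℝ) + 1 ≤ ((q / L : ℕ) : ℝ) := by
    exact_mod_cast h2
  have c2 : (0 : ℝ) ≤ 6 * P 0 := by positivity
  have := mul_le_mul_of_nonneg_left h3 c2
  linarith

theorem AA_tau {p q : ℕ} (hK : 0 < K) (hpq : p ≤ q) (h : p / L = q / L)
    (ht : tau K L P p ≠ tau K L P q) :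
    4 * (P (ar K L p) : ℝ) / R ≤ AA K G g R L s P q - AA K G g R L s P p := by
  refine le_trans ?_ (AA_single (s := s) hpq (i := ar K L p) (Nat.mod_lt _ hK))
  have har : ar K L q = ar K L p := by unfold ar; rw [h]
  have h1 : p / P (ar K L p) ≠ q / P (ar K L p) := by
    intro he
    apply ht
    unfold tau
    rw [har, he]
  have h2 : p / P (ar K L p) + 1 ≤ q / P (ar K L p) := by
    have := Nat.div_le_div_right (c := P (ar K L p)) hpq
    omega
  unfold TT
  set i := ar K L p
  have h3 : ((p / P i : ℕ) : ℝ) + 1 ≤ ((q / P i : ℕ) : ℝ) := by exact_mod_cast h2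
  have g1 : ((p / (G * s i) : ℕ) : ℝ) ≤ ((q / (G * s i) : ℕ) : ℝ) := by
    exact_mod_cast Nat.div_le_div_right hpq
  have g2 : (((p + (G - g) * s i) / (G * s i) : ℕ) : ℝ) ≤ (((q + (G - g) * s i) / (G * s i) : ℕ) : ℝ) := by
    exact_mod_cast Nat.div_le_div_right (by omega)
  have c1 : (0 : ℝ) ≤ 2 * G * s i / R := by positivity
  have c2 : (0 : ℝ) ≤ 4 * P i / R := by positivity
  have := mul_le_mul_of_nonneg_left (add_le_add g1 g2) c1
  have := mul_le_mul_of_nonneg_left h3 c2
  linarith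

theorem Tex.AA_wd (h : Tex K G g R L s P) {p q : ℕ} (hpq : p ≤ q) (hL : p / L = q / L)
    (ht : wd K G g L s P p ≠ wd K G g L s P q) :
    2 * ((G * s (ar K L p) : ℕ) : ℝ) / R ≤ AA K G g R L s P q - AA K G g R L s P p := by
  have hi : ar K L p < K := Nat.mod_lt _ h.hK
  refine le_trans ?_ (AA_single (s := s) hpq hi)
  have har : ar K L q = ar K L p := by unfold ar; rw [hL]
  have hGs := h.Gs_pos hi
  have hG := h.hG
  set i := ar K L p with hidef
  have m1 := Nat.div_le_div_right (c := G * s i) hpq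
  have m2 : (p + (G - g) * s i) / (G * s i) ≤ (q + (G - g) * s i) / (G * s i) :=
    Nat.div_le_div_right (by omega)
  have key : p / (G * s i) + (p + (G - g) * s i) / (G * s i) + 1 ≤
      q / (G * s i) + (q + (G - g) * s i) / (G * s i) := by
    by_contra hcon
    have n1 : p / (G * s i) = q / (G * s i) := by omega
    have n2 : (p + (G - g) * s i) / (G * s i) = (q + (G - g) * s i) / (G * s i) := by omega
    obtain ⟨m, hm⟩ := h.d1 i hi
    have n3 : p / P i = q / P i := by
      rw [hm, ← Nat.div_div_eq_div_mul p (G * s i) m, ← Nat.div_div_eq_div_mul q (G * s i) m, n1]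
    have n4 : tau K L P p = tau K L P q := by
      unfold tau
      rw [har, ← hidef, n3]
    have e1 := Nat.div_add_mod' p (G * s i)
    have e2 := Nat.div_add_mod' q (G * s i)
    rw [← n1] at e2
    have e3 := Nat.mod_lt p hGs
    have e4 := Nat.mod_lt q hGs
    have e5 : (G - g) * s i + g * s i = G * s i := by
      rw [← Nat.add_mul]; congr 1; omega
    have e6 : ¬ ((p % (G * s i) < g * s i) ↔ (q % (G * s i) < g * s i)) := by
      intro hiff
      apply ht
      unfold wd
      rw [har, ← hidef, n4]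
      by_cases hc : p % (G * s i) < g * s i
      · rw [if_pos hc, if_pos (hiff.mp hc)]
      · rw [if_neg hc, if_neg (fun hh => hc (hiff.mpr hh))]
    have e7 : p % (G * s i) ≤ q % (G * s i) := by omega
    have e8 : p % (G * s i) < g * s i ∧ g * s i ≤ q % (G * s i) := by omega
    have e9 : (p + (G - g) * s i) / (G * s i) < p / (G * s i) + 1 := by
      rw [Nat.div_lt_iff_lt_mul hGs, Nat.add_mul, Nat.one_mul]
      omega
    have e10 : p / (G * s i) + 1 ≤ (q + (G - g) * s i) / (G * s i) := by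
      rw [Nat.le_div_iff_mul_le hGs, Nat.add_mul, Nat.one_mul]
      omega
    omega
  unfold TT
  have key' : ((p / (G * s i) : ℕ) : ℝ) + (((p + (G - g) * s i) / (G * s i) : ℕ) : ℝ) + 1 ≤
      ((q / (G * s i) : ℕ) : ℝ) + (((q + (G - g) * s i) / (G * s i) : ℕ) : ℝ) := by
    exact_mod_cast key
  have h3 : ((p / P i : ℕ) : ℝ) ≤ ((q / P i : ℕ) : ℝ) := by
    exact_mod_cast Nat.div_le_div_right hpq
  have c1 : (0 : ℝ) ≤ 2 * G * s i / R := by positivity
  have c2 : (0 : ℝ) ≤ 4 * P i / R := by positivity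
  have := mul_le_mul_of_nonneg_left key' c1
  have := mul_le_mul_of_nonneg_left h3 c2
  push_cast
  have e : 2 * ((G : ℝ) * (s i : ℝ)) / (R : ℝ) = 2 * G * s i / R := by ring
  rw [e]
  linarith

theorem Tex.AA_total (h : Tex K G g R L s P) {z : ℕ} (hz : z ≤ 2 * (K * L)) :
    AA K G g R L s P z ≤ (16 * K + 14) * (K * L) / R := by
  refine (AA_mono hz).trans ?_
  rw [AA_eq]
  have hR : (0 : ℝ) < R := by exact_mod_cast h.hR
  have hR1 : (1 : ℝ) ≤ R := by exact_mod_cast h.hR
  have hL0 : (0 : ℝ) < L := by exact_mod_cast h.hL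
  have hK0 : (0 : ℝ) < K := by exact_mod_cast h.hK
  have hG := h.hG
  have hPL : (R : ℝ) * P 0 ≤ L := by exact_mod_cast h.PL
  have hP0 : (P 0 : ℝ) ≤ L / R := by rw [le_div_iff₀ hR]; linarith
  have h1 : ∀ i ∈ range K, TT G g R s P i (2 * (K * L)) ≤ (16 * (K * L) + 2 * P 0) / R := by
    intro i hi
    have hi' := mem_range.mp hi
    have hGs := h.Gs_pos hi'
    have hP := h.P_pos hi'
    have hGs' : (0 : ℝ) < G * s i := by exact_mod_cast hGs
    have hP' : (0 : ℝ) < P i := by exact_mod_cast hP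
    unfold TT
    have a1 : (((2 * (K * L)) / (G * s i) : ℕ) : ℝ) ≤ 2 * (K * L) / (G * s i) := by
      have := @Nat.cast_div_le ℝ _ _ _ (2 * (K * L)) (G * s i)
      push_cast at this
      exact this
    have a2 : (((2 * (K * L) + (G - g) * s i) / (G * s i) : ℕ) : ℝ) ≤ (2 * (K * L) + P 0) / (G * s i) := by
      have := @Nat.cast_div_le ℝ _ _ _ (2 * (K * L) + (G - g) * s i) (G * s i)
      refine this.trans ?_
      push_cast
      apply div_le_div_of_nonneg_right _ hGs'.le
      have b1 : (G - g) * s i ≤ P 0 :=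
        (Nat.mul_le_mul_right _ (Nat.sub_le _ _)).trans ((Nat.le_of_dvd hP (h.d1 i hi')).trans (h.P0 i hi'))
      have b2 : (((G - g) * s i : ℕ) : ℝ) ≤ P 0 := by exact_mod_cast b1
      push_cast at b2
      linarith
    have a3 : (((2 * (K * L)) / P i : ℕ) : ℝ) ≤ 2 * (K * L) / P i := by
      have := @Nat.cast_div_le ℝ _ _ _ (2 * (K * L)) (P i)
      push_cast at this
      exact this
    have c1 : (0 : ℝ) ≤ 2 * G * s i / R := by positivity
    have c2 : (0 : ℝ) ≤ 4 * P i / R := by positivity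
    have e1 := mul_le_mul_of_nonneg_left (add_le_add a1 a2) c1
    have e2 := mul_le_mul_of_nonneg_left a3 c2
    have e3 : (2 * G * s i / R : ℝ) * (2 * (K * L) / (G * s i) + (2 * (K * L) + P 0) / (G * s i)) =
        (8 * (K * L) + 2 * P 0) / R := by
      have : (G : ℝ) ≠ 0 := by
        have : (0 : ℝ) < G := by exact_mod_cast (by omega : 0 < G)
        exact this.ne'
      have : (s i : ℝ) ≠ 0 := by
        have : (0 : ℝ) < s i := by exact_mod_cast h.hs i hi'
        exact this.ne'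
      field_simp
      ring
    have e4 : (4 * P i / R : ℝ) * (2 * (K * L) / P i) = 8 * (K * L) / R := by
      have := hP'.ne'
      field_simp
      ring
    rw [e3] at e1
    rw [e4] at e2
    have e5 : (16 * (K * L) + 2 * P 0 : ℝ) / R = (8 * (K * L) + 2 * P 0) / R + 8 * (K * L) / R := by ring
    rw [e5]
    exact add_le_add e1 e2
  have h2 := Finset.sum_le_sum h1
  rw [Finset.sum_const, card_range, nsmul_eq_mul] at h2
  have h3 : ((2 * (K * L)) / L : ℕ) = 2 * K := by
    rw [← mul_assoc]; exact Nat.mul_div_cancel _ h.hL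
  rw [h3]
  push_cast
  have h4 : (K : ℝ) * ((16 * (K * L) + 2 * P 0) / R) ≤ (16 * K + 2) * (K * L) / R := by
    rw [← mul_div_assoc]
    apply div_le_div_of_nonneg_right _ hR.le
    have : (P 0 : ℝ) ≤ L := by
      have : (P 0 : ℝ) ≤ R * P 0 := by
        have : (0 : ℝ) ≤ P 0 := by positivity
        nlinarith
      linarith
    nlinarith
  have h5 : (6 : ℝ) * P 0 * (2 * K) ≤ 12 * (K * L) / R := by
    have : (6 : ℝ) * P 0 * (2 * K) ≤ 6 * (L / R) * (2 * K) := by
      apply mul_le_mul_of_nonneg_right _ (by positivity)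
      linarith
    refine this.trans (le_of_eq ?_)
    ring
  have h6 : (16 * K + 14 : ℝ) * (K * L) / R = (16 * K + 2) * (K * L) / R + 12 * (K * L) / R := by ring
  rw [h6]
  linarith

end Pool.Agent.H95.NU
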