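import Pool.Agent.H95.NP.GeoB

/-!
# Upper bound, crossing chords
-/

namespace Pool.Agent.H95.NU

open Pool.Agent.H95.NP

/-- a point of the closed unit disc on the line through two points of the unit circle is between them -/
theorem mem_segment_of_disc (a b : ℝ) (hab : a < b) (hb : b < a + 2 * Real.pi) (z : ℂ) (hz : ‖z‖ ≤ 1)
    (hF : chordF 0 1 a b z = 0) : z ∈ segment ℝ (circ 0 1 a) (circ 0 1 b) := by
  set h := (b - a) / 2 with hh
  set φ := (a + b) / 2 with hφ
  have hsin : 0 < Real.sin h := Real.sin_pos_of_pos_of_lt_pi (by linarith) (by linarith)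
  set z' : ℂ := z * Complex.exp (-((φ : ℝ) : ℂ) * Complex.I) with hz'
  have hre : z'.re = Real.cos h := by
    unfold chordF at hF
    rw [sub_zero, one_mul] at hF
    rw [hz', hφ]
    linarith
  have hnorm : ‖z'‖ ≤ 1 := by
    rw [hz', norm_mul]
    have : ‖Complex.exp (-((φ : ℝ) : ℂ) * Complex.I)‖ = 1 := by
      have := Complex.norm_exp_ofReal_mul_I (-φ)
      push_cast at this
      exact this
    rw [this, mul_one]
    exact hz
  have hsq : z'.re ^ 2 + z'.im ^ 2 ≤ 1 := by
    have h1 : ‖z'‖ ^ 2 ≤ 1 := by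
      have := norm_nonneg z'
      nlinarith
    rw [← Complex.normSq_eq_norm_sq, Complex.normSq_apply] at h1
    nlinarith
  have hcs := Real.sin_sq_add_cos_sq h
  have hy : z'.im ^ 2 ≤ Real.sin h ^ 2 := by
    rw [hre] at hsq
    linarith
  have hy' := abs_le_of_sq_le_sq hy hsin.le
  rw [abs_le] at hy'
  set t := (z'.im + Real.sin h) / (2 * Real.sin h) with ht
  have ht0 : 0 ≤ t := by
    apply div_nonneg <;> linarith
  have ht1 : t ≤ 1 := by
    rw [ht, div_le_one (by linarith)]
    linarith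
  refine ⟨1 - t, t, by linarith, ht0, by ring, ?_⟩
  have ez : z = z' * Complex.exp ((φ : ℂ) * Complex.I) := by
    rw [hz', mul_assoc, ← Complex.exp_add]
    have : -(φ : ℂ) * Complex.I + (φ : ℂ) * Complex.I = 0 := by ring
    rw [this, Complex.exp_zero, mul_one]
  have eA : circ 0 1 a = (Real.cos h - Real.sin h * Complex.I) * Complex.exp ((φ : ℂ) * Complex.I) := by
    unfold circ
    have e1 : (a : ℂ) * Complex.I = -((h : ℂ) * Complex.I) + (φ : ℂ) * Complex.I := by
      rw [hh, hφ]; push_cast; ring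
    rw [e1, Complex.exp_add, ← neg_mul, Complex.exp_mul_I, Complex.cos_neg, Complex.sin_neg]
    push_cast
    ring
  have eB : circ 0 1 b = (Real.cos h + Real.sin h * Complex.I) * Complex.exp ((φ : ℂ) * Complex.I) := by
    unfold circ
    have e1 : (b : ℂ) * Complex.I = (h : ℂ) * Complex.I + (φ : ℂ) * Complex.I := by
      rw [hh, hφ]; push_cast; ring
    rw [e1, Complex.exp_add, Complex.exp_mul_I]
    push_cast
    ring
  rw [eA, eB, ez]
  have ez' : z' = Real.cos h + z'.im * Complex.I := by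
    rw [← hre]; exact (Complex.re_add_im z').symm
  have e2 : (2 * t - 1) * Real.sin h = z'.im := by
    rw [ht]
    field_simp
    ring
  rw [ez', ← e2]
  simp only [Complex.real_smul]
  push_cast
  ring

theorem circ_norm (a : ℝ) : ‖circ 0 1 a‖ = 1 := by
  unfold circ
  rw [zero_add, norm_mul, Complex.norm_exp_ofReal_mul_I]
  simp

theorem cross_chords (a b c d : ℝ) (h1 : a < c) (h2 : c < b) (h3 : b < d) (h4 : d < a + 2 * Real.pi) :
    ∃ z : ℂ, z ∈ segment ℝ (circ 0 1 a) (circ 0 1 b) ∧ z ∈ segment ℝ (circ 0 1 c) (circ 0 1 d) := by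
  have f1 := chordF_neg 0 1 a b c one_pos h1 h2 (by linarith)
  have f2 := chordF_pos 0 1 a b d one_pos (by linarith) h3 h4
  set F := chordF 0 1 a b with hF
  set t := F (circ 0 1 c) / (F (circ 0 1 c) - F (circ 0 1 d)) with ht
  have hneg : F (circ 0 1 c) - F (circ 0 1 d) < 0 := by linarith
  have ht0 : 0 ≤ t := div_nonneg_of_nonpos f1.le hneg.le
  have ht1 : t ≤ 1 := by
    rw [ht, div_le_one_of_neg hneg]
    linarith
  refine ⟨(1 - t) • circ 0 1 c + t • circ 0 1 d, ?_, ⟨1 - t, t, by linarith, ht0, by ring, rfl⟩⟩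
  apply mem_segment_of_disc a b (by linarith) (by linarith)
  · calc ‖(1 - t) • circ 0 1 c + t • circ 0 1 d‖ ≤ ‖(1 - t) • circ 0 1 c‖ + ‖t • circ 0 1 d‖ := norm_add_le _ _
      _ = (1 - t) * 1 + t * 1 := by
        rw [norm_smul, norm_smul, circ_norm, circ_norm, Real.norm_of_nonneg (by linarith : 0 ≤ 1 - t),
          Real.norm_of_nonneg ht0]
      _ = 1 := by ring
      _ ≤ 1 := le_rfl
  · rw [chordF_affine 0 1 a b _ _ (1 - t) t (by ring), ← hF]
    have e1 : t * (F (circ 0 1 c) - F (circ 0 1 d)) = F (circ 0 1 c) := by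
      rw [ht]
      exact div_mul_cancel₀ _ hneg.ne
    linarith

end Pool.Agent.H95.NU
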