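import Mathlib

/-!
# MP_f5d6d4_co, upper bound: definitions

`IsCh T w E`: `E` is a nested chain of alternating pairs of the circular word `w` of period `T`.
`Tex`: the arithmetic conditions on the parameters of the two-level textures.
-/

namespace Pool.Agent.H95.NU

open Finset

/-- `E` is a nested chain of alternating pairs in the circular word `w` of period `T`. -/
structure IsCh (T : ℕ) (w : ℕ → Bool) (E : Finset (ℕ × ℕ)) : Prop where
  lt : ∀ e ∈ E, e.1 < e.2
  lt' : ∀ e ∈ E, e.2 < e.1 + T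
  alt : ∀ e ∈ E, w e.1 ≠ w e.2
  nest : ∀ e ∈ E, ∀ e' ∈ E, e ≠ e' → (e.1 < e'.1 ∧ e'.2 < e.2) ∨ (e'.1 < e.1 ∧ e.2 < e'.2)

theorem IsCh.subset {T : ℕ} {w : ℕ → Bool} {E E' : Finset (ℕ × ℕ)} (h : IsCh T w E) (hs : E' ⊆ E) :
    IsCh T w E' where
  lt e he := h.lt e (hs he)
  lt' e he := h.lt' e (hs he)
  alt e he := h.alt e (hs he)
  nest e he e' he' := h.nest e (hs he) e' (hs he')

/-- Parameters of the textures: `K` arcs of length `L`; arc `i` has fine periods `G * s i` (of which `g * s i`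
letters have the minority colour) and regions of length `P i` with alternating minority colour. -/
structure Tex (K G g R L : ℕ) (s P : ℕ → ℕ) : Prop where
  hK : 0 < K
  hg : 0 < g
  hG : 2 * g < G
  hL : 0 < L
  hR : 0 < R
  hs : ∀ i, i < K → 0 < s i
  d1 : ∀ i, i < K → G * s i ∣ P i
  d2 : ∀ i, i < K → 2 * P i ∣ L
  inc : ∀ i j, i < j → j < K → R * s i ≤ s j
  dec : ∀ i j, i < j → j < K → R * P j ≤ P i
  P0 : ∀ i, i < K → P i ≤ P 0
  PL : R * P 0 ≤ L

/-- residue of the arc of the position `z` -/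
def ar (K L z : ℕ) : ℕ := (z / L) % K

/-- minority colour of the region of `z` -/
def tau (K L : ℕ) (P : ℕ → ℕ) (z : ℕ) : Bool := decide ((z / P (ar K L z)) % 2 = 1)

/-- the word -/
def wd (K G g L : ℕ) (s P : ℕ → ℕ) (z : ℕ) : Bool :=
  if z % (G * s (ar K L z)) < g * s (ar K L z) then tau K L P z else !(tau K L P z)

/-- `g / G` -/
noncomputable def mu (G g : ℕ) : ℝ := (g : ℝ) / G

/-- `g / (G - g)` -/
noncomputable def uu (G g : ℕ) : ℝ := (g : ℝ) / ((G : ℝ) - g)

/-- weight of a letter `a` in a region with minority colour `θ` facing the colour `β` -/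
noncomputable def qq (G g : ℕ) (θ a β : Bool) : ℝ :=
  if a = β then 0 else if a = θ then 1 else uu G g

noncomputable def dF (K G g L : ℕ) (s P : ℕ → ℕ) (β : Bool) (z : ℕ) : ℝ :=
  qq G g (tau K L P z) (wd K G g L s P z) β - mu G g

noncomputable def dH (K G g L : ℕ) (s P : ℕ → ℕ) (θ : Bool) (z : ℕ) : ℝ :=
  (1 - uu G g) * ((if wd K G g L s P z = θ then 1 else 0) - 1 / 2)

noncomputable def SF (K G g L : ℕ) (s P : ℕ → ℕ) (β : Bool) (z : ℕ) : ℝ :=
  ∑ v ∈ range z, dF K G g L s P β v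

noncomputable def SH (K G g L : ℕ) (s P : ℕ → ℕ) (θ : Bool) (z : ℕ) : ℝ :=
  ∑ v ∈ range z, dH K G g L s P θ v

/-- cumulative cost of the changes -/
noncomputable def AA (K G g R L : ℕ) (s P : ℕ → ℕ) (z : ℕ) : ℝ :=
  (∑ i ∈ range K, ((2 * G * s i / R : ℝ) *
      (((z / (G * s i) : ℕ) : ℝ) + (((z + (G - g) * s i) / (G * s i) : ℕ) : ℝ)) +
    (4 * P i / R : ℝ) * ((z / P i : ℕ) : ℝ))) + 6 * P 0 * ((z / L : ℕ) : ℝ)

end Pool.Agent.H95.NU
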