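import Pool.Agent.H95.NU.Chain

/-!
# Upper bound, padding
-/

namespace Pool.Agent.H95.NU

open Finset

variable {K G g R L : ℕ} {s P : ℕ → ℕ}

theorem Tex.ar_period (h : Tex K G g R L s P) (z m : ℕ) : ar K L (z + m * (K * L)) = ar K L z := by
  unfold ar
  have : z + m * (K * L) = z + (m * K) * L := by ring
  rw [this, Nat.add_mul_div_right _ _ h.hL, Nat.add_mul_mod_self_right]

theorem Tex.wd_period (h : Tex K G g R L s P) (z m : ℕ) :
    wd K G g L s P (z + m * (K * L)) = wd K G g L s P z := by
  have hi := h.ar_lt z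
  have h1 : (z + m * (K * L)) % (G * s (ar K L z)) = z % (G * s (ar K L z)) := by
    obtain ⟨q, hq⟩ := h.Gs_dvd hi
    have : m * (K * L) = (G * s (ar K L z)) * (m * K * q) := by
      conv_lhs => rw [hq]
      ring
    rw [this, Nat.add_mul_mod_self_left]
  have h2 : tau K L P (z + m * (K * L)) = tau K L P z := by
    unfold tau
    rw [h.ar_period]
    obtain ⟨q, hq⟩ := h.d2 _ hi
    have : m * (K * L) = (2 * (m * K * q)) * P (ar K L z) := by
      conv_lhs => rw [hq]
      ring
    rw [this, Nat.add_mul_div_right _ _ (h.P_pos hi)]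
    congr 1
    rw [Nat.add_mul_mod_self_left]
  unfold wd
  rw [h.ar_period, h1, h2]

theorem Tex.wd_mod (h : Tex K G g R L s P) (z m : ℕ) :
    wd K G g L s P (m * (K * L) + z) = wd K G g L s P z := by
  rw [add_comm]; exact h.wd_period z m

theorem Tex.wd_block (h : Tex K G g R L s P) {D : ℕ} (hD : 0 < D) (hDs : ∀ i, i < K → D ∣ s i) {z z' : ℕ}
    (hz : z / D = z' / D) : wd K G g L s P z = wd K G g L s P z' := by
  have hi := h.ar_lt z
  have hdiv : ∀ X, D ∣ X → z / X = z' / X := by
    rintro X ⟨q, rfl⟩
    rw [← Nat.div_div_eq_div_mul, ← Nat.div_div_eq_div_mul, hz]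
  have hDP : ∀ i, i < K → D ∣ P i := fun i hi =>
    ((hDs i hi).trans (Dvd.intro_left G rfl)).trans (h.d1 i hi)
  have hDL : D ∣ L := (hDP 0 h.hK).trans (h.P_dvd h.hK)
  have har : ar K L z' = ar K L z := by
    unfold ar
    rw [hdiv L hDL]
  have htau : tau K L P z' = tau K L P z := by
    unfold tau
    rw [har, hdiv _ (hDP _ hi)]
  unfold wd
  rw [har, htau]
  obtain ⟨q, hq⟩ := hDs _ hi
  have e1 : ∀ y, y % (G * s (ar K L z)) < g * s (ar K L z) ↔ (y / D) % (G * q) < g * q := by
    intro y
    rw [hq]
    have e2 : G * (D * q) = D * (G * q) := by ring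
    have e3 : g * (D * q) = (g * q) * D := by ring
    rw [e2, e3, ← Nat.div_lt_iff_lt_mul hD, Nat.mod_mul_right_div_self]
  have e4 : z % (G * s (ar K L z)) < g * s (ar K L z) ↔ z' % (G * s (ar K L z)) < g * s (ar K L z) := by
    rw [e1 z, e1 z', hz]
  by_cases hc : z % (G * s (ar K L z)) < g * s (ar K L z)
  · rw [if_pos hc, if_pos (e4.mp hc)]
  · rw [if_neg hc, if_neg (fun hh => hc (e4.mpr hh))]

theorem Tex.SH_N (h : Tex K G g R L s P) (θ : Bool) : SH K G g L s P θ (K * L) = 0 := by
  obtain ⟨q, hq⟩ := h.d2 0 h.hK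
  have e0 : K * L = (K * q) * (2 * P (K % K)) := by
    rw [Nat.mod_self]
    conv_lhs => rw [hq]
    ring
  have := prefix_zero K L (fun i => 2 * P i) (dH K G g L s P θ) h.hK h.hL
    (fun _ hi => by have := h.P_pos hi; omega)
    (fun _ hi => h.d2 _ hi) (fun c i hi hc => h.dH_zero θ c i hi hc) K (K * q)
    (by show K * L ≤ (K * q) * (2 * P (K % K)); rw [← e0])
    (by show (K * q) * (2 * P (K % K)) ≤ (K + 1) * L
        rw [← e0]; exact Nat.mul_le_mul_right _ (Nat.le_succ _))
  unfold SH
  rw [e0]
  exact this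

theorem Tex.count (h : Tex K G g R L s P) :
    2 * ((range (K * L)).filter fun z => wd K G g L s P z = true).card = K * L := by
  have h1 := h.SH_N true
  have hu := h.uu_lt
  unfold SH dH at h1
  rw [← Finset.mul_sum, Finset.sum_sub_distrib] at h1
  have h2 : (∑ z ∈ range (K * L), (if wd K G g L s P z = true then (1 : ℝ) else 0)) -
      ∑ z ∈ range (K * L), (1 / 2 : ℝ) = 0 := by
    rcases mul_eq_zero.mp h1 with h3 | h3
    · linarith
    · exact h3
  rw [Finset.sum_boole, Finset.sum_const, card_range, nsmul_eq_mul] at h2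
  have h3 : (2 : ℝ) * (((range (K * L)).filter fun z => wd K G g L s P z = true).card : ℝ) =
      ((K * L : ℕ) : ℝ) := by linarith
  exact_mod_cast h3

/-- the padded word of period `T` -/
def pw (K G g L : ℕ) (s P : ℕ → ℕ) (T : ℕ) (z : ℕ) : Bool :=
  if z % T < K * L then wd K G g L s P (z % T) else decide (z % T < K * L + (T - K * L) / 2)

theorem pw_period (T z : ℕ) : pw K G g L s P T (z + T) = pw K G g L s P T z := by
  unfold pw
  rw [Nat.add_mod_right]

theorem Tex.pw_count (h : Tex K G g R L s P) {n : ℕ} (hT : K * L ≤ 2 * n) :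
    ((range (2 * n)).filter fun z => pw K G g L s P (2 * n) z = true).card = n := by
  have h1 := h.count
  obtain ⟨d, hd⟩ : ∃ d, 2 * n = K * L + d := ⟨2 * n - K * L, by omega⟩
  have e1 : ((range (2 * n)).filter fun z => pw K G g L s P (2 * n) z = true).card =
      ∑ z ∈ range (2 * n), (if pw K G g L s P (2 * n) z = true then 1 else 0) := by
    rw [Finset.card_filter]
  have e2 : ∑ z ∈ range (2 * n), (if pw K G g L s P (2 * n) z = true then 1 else 0) =
      ∑ z ∈ range (K * L), (if wd K G g L s P z = true then 1 else 0) + d / 2 := by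
    have a1 : ∀ z ∈ range (K * L), (if pw K G g L s P (2 * n) z = true then 1 else 0) =
        (if wd K G g L s P z = true then 1 else 0) := by
      intro z hz
      have hz' := mem_range.mp hz
      unfold pw
      rw [Nat.mod_eq_of_lt (by omega), if_pos hz']
    have a2 : ∀ v ∈ range d, (if pw K G g L s P (2 * n) (K * L + v) = true then 1 else 0) =
        (if v < d / 2 then 1 else 0) := by
      intro v hv
      have hv' := mem_range.mp hv
      have hmm : (K * L + v) % (2 * n) = K * L + v := Nat.mod_eq_of_lt (by omega)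
      have hdd : 2 * n - K * L = d := by omega
      have hpv : pw K G g L s P (2 * n) (K * L + v) = decide (v < d / 2) := by
        unfold pw
        rw [hmm, if_neg (by omega), hdd]
        simp only [Nat.add_lt_add_iff_left]
      rw [hpv]
      simp only [decide_eq_true_eq]
    conv_lhs => rw [hd]
    rw [Finset.sum_range_add, ← hd, Finset.sum_congr rfl a1, Finset.sum_congr rfl a2]
    congr 1
    have a3 : ∑ v ∈ range d, (if v < d / 2 then 1 else 0) = ((range d).filter fun v => v < d / 2).card := by
      rw [Finset.card_filter]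
    rw [a3]
    have a4 : ((range d).filter fun v => v < d / 2) = range (d / 2) := by
      ext v
      simp only [mem_filter, mem_range]
      omega
    rw [a4, card_range]
  have e3 : ((range (K * L)).filter fun z => wd K G g L s P z = true).card =
      ∑ z ∈ range (K * L), (if wd K G g L s P z = true then 1 else 0) := by
    rw [Finset.card_filter]
  rw [e1, e2, ← e3]
  omega

/-- boundary counting function -/
def bd (K L D T z : ℕ) : ℕ :=
  (z / T) * (K * L / D + (T - K * L)) + (min (z % T) (K * L)) / D + (z % T - K * L)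

theorem bd_period {D T : ℕ} (hT : 0 < T) (z : ℕ) :
    bd K L D T (z + T) = bd K L D T z + (K * L / D + (T - K * L)) := by
  unfold bd
  rw [Nat.add_mod_right, Nat.add_div_right _ hT]
  ring

theorem bd_lt_of_div {D T : ℕ} (hT : 0 < T) (hD : 0 < D) (hDN : D ∣ K * L) (hN : K * L ≤ T) {z z' : ℕ}
    (h : z / T < z' / T) : bd K L D T z < bd K L D T z' := by
  have hm := Nat.mod_lt z hT
  have h1 : (min (z % T) (K * L)) / D + (z % T - K * L) < K * L / D + (T - K * L) := by
    rcases Nat.lt_or_ge (z % T) (K * L) with hc | hc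
    · rw [min_eq_left hc.le, Nat.sub_eq_zero_of_le hc.le, add_zero]
      obtain ⟨q, hq⟩ := hDN
      rw [hq] at hc ⊢
      rw [Nat.mul_div_cancel_left _ hD]
      have : z % T / D < q := by
        rw [Nat.div_lt_iff_lt_mul hD]; linarith
      omega
    · rw [min_eq_right hc]
      omega
  unfold bd
  have h2 : (z / T) * (K * L / D + (T - K * L)) + (K * L / D + (T - K * L)) ≤
      (z' / T) * (K * L / D + (T - K * L)) := by
    have := Nat.mul_le_mul_right (K * L / D + (T - K * L)) (Nat.succ_le_of_lt h)
    rw [Nat.succ_mul] at this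
    exact this
  have h3 : 0 ≤ (min (z' % T) (K * L)) / D := Nat.zero_le _
  generalize (min (z' % T) (K * L)) / D = k at h3 ⊢
  omega

theorem bd_mono {D T : ℕ} (hT : 0 < T) (hD : 0 < D) (hDN : D ∣ K * L) (hN : K * L ≤ T) :
    Monotone (bd K L D T) := by
  intro z z' hz
  rcases Nat.lt_or_ge (z / T) (z' / T) with h | h
  · exact (bd_lt_of_div hT hD hDN hN h).le
  · have h1 : z / T = z' / T := le_antisymm (Nat.div_le_div_right hz) h
    have e1 := Nat.div_add_mod' z T
    have e2 := Nat.div_add_mod' z' T
    rw [← h1] at e2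
    have e3 : z % T ≤ z' % T := by omega
    unfold bd
    rw [← h1]
    have e4 : (min (z % T) (K * L)) / D ≤ (min (z' % T) (K * L)) / D :=
      Nat.div_le_div_right (min_le_min_right _ e3)
    omega

theorem Tex.bd_strict (h : Tex K G g R L s P) {D T : ℕ} (hT : 0 < T) (hD : 0 < D)
    (hDs : ∀ i, i < K → D ∣ s i) (hN : K * L ≤ T) {z z' : ℕ} (hz : z < z')
    (hw : pw K G g L s P T z ≠ pw K G g L s P T z') : bd K L D T z < bd K L D T z' := by
  have hDN : D ∣ K * L := by
    have : D ∣ P 0 := ((hDs 0 h.hK).trans (Dvd.intro_left G rfl)).trans (h.d1 0 h.hK)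
    exact (this.trans (h.P_dvd h.hK)).trans (Dvd.intro_left K rfl)
  rcases Nat.lt_or_ge (z / T) (z' / T) with h0 | h0
  · exact bd_lt_of_div hT hD hDN hN h0
  · have h1 : z / T = z' / T := le_antisymm (Nat.div_le_div_right hz.le) h0
    have e1 := Nat.div_add_mod' z T
    have e2 := Nat.div_add_mod' z' T
    rw [← h1] at e2
    have e3 : z % T < z' % T := by omega
    unfold bd
    rw [← h1]
    rcases Nat.lt_or_ge (z' % T) (K * L) with hc | hc
    · -- both in the texture
      have hw' : wd K G g L s P (z % T) ≠ wd K G g L s P (z' % T) := by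
        unfold pw at hw
        rw [if_pos hc, if_pos (e3.trans hc)] at hw
        exact hw
      have e4 : z % T / D ≠ z' % T / D := fun he => hw' (h.wd_block hD hDs he)
      have e5 : z % T / D ≤ z' % T / D := Nat.div_le_div_right e3.le
      rw [min_eq_left hc.le, min_eq_left (e3.trans hc).le]
      omega
    · rw [min_eq_right hc]
      rcases Nat.lt_or_ge (z % T) (K * L) with hc' | hc'
      · rw [min_eq_left hc'.le]
        have : z % T / D < K * L / D := by
          obtain ⟨q, hq⟩ := hDN
          rw [hq] at hc' ⊢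
          rw [Nat.mul_div_cancel_left _ hD, Nat.div_lt_iff_lt_mul hD]
          linarith
        omega
      · rw [min_eq_right hc']
        omega

end Pool.Agent.H95.NU
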