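import Pool.Agent.H95.NU.Pad

/-!
# Upper bound, chains in the padded word
-/

namespace Pool.Agent.H95.NU

open Finset

variable {K G g R L : ℕ} {s P : ℕ → ℕ}

/-- removal of the padding -/
def ph (N T z : ℕ) : ℕ := (z / T) * N + z % T

theorem ph_lt {N T : ℕ} (hT : 0 < T) {z z' : ℕ} (hz : z < z') (h1 : z % T < N) : ph N T z < ph N T z' := by
  unfold ph
  have e1 := Nat.div_add_mod' z T
  have e2 := Nat.div_add_mod' z' T
  rcases Nat.lt_or_ge (z / T) (z' / T) with h | h
  · have h2 : (z / T) * N + N ≤ (z' / T) * N := by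
      have := Nat.mul_le_mul_right N (Nat.succ_le_of_lt h)
      rw [Nat.succ_mul] at this
      exact this
    omega
  · have h3 : z / T = z' / T := le_antisymm (Nat.div_le_div_right hz.le) h
    rw [← h3] at e2 ⊢
    omega

theorem ph_add {N T : ℕ} (hT : 0 < T) (z : ℕ) : ph N T (z + T) = ph N T z + N := by
  unfold ph
  rw [Nat.add_mod_right, Nat.add_div_right _ hT]
  ring

theorem bad_card {N T : ℕ} (hN : 0 < N) (E : Finset (ℕ × ℕ)) (f : ℕ × ℕ → ℕ) (hf : Set.InjOn f E)
    (hE : ∀ e ∈ E, f e ≤ 2 * T) (hb : ∀ e ∈ E, N ≤ f e % T) : E.card ≤ 2 * (T - N) := by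
  rcases Nat.eq_zero_or_pos T with hT | hT
  · subst hT
    rcases E.eq_empty_or_nonempty with h | h
    · simp [h]
    · obtain ⟨e, he⟩ := h
      have h1 := hE e he
      have h2 := hb e he
      have : f e = 0 := by omega
      rw [this] at h2
      simp at h2
      omega
  have hmaps : ∀ e ∈ E, f e ∈ Ico N T ∪ Ico (T + N) (2 * T) := by
    intro e he
    have h1 := hE e he
    have h2 := hb e he
    have h3 := Nat.mod_lt (f e) hT
    have h4 := Nat.div_add_mod' (f e) T
    rw [mem_union, mem_Ico, mem_Ico]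
    have h5 : f e / T ≤ 2 := by
      have := Nat.div_le_div_right (c := T) h1
      rwa [Nat.mul_div_cancel _ hT] at this
    have h6 : f e / T = 0 ∨ f e / T = 1 ∨ f e / T = 2 := by
      generalize f e / T = q at h5
      omega
    rcases h6 with h6 | h6 | h6
    · rw [h6] at h4; left; omega
    · rw [h6] at h4; right; omega
    · rw [h6] at h4; exfalso; omega
  have h1 := Finset.card_le_card_of_injOn f hmaps hf
  refine h1.trans ((card_union_le _ _).trans ?_)
  rw [Nat.card_Ico, Nat.card_Ico]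
  omega

theorem IsCh.inj1 {T : ℕ} {w : ℕ → Bool} {E : Finset (ℕ × ℕ)} (h : IsCh T w E) :
    Set.InjOn (Prod.fst : ℕ × ℕ → ℕ) E := by
  intro e he e' he' heq
  by_contra hne
  rcases h.nest e he e' he' hne with h1 | h1 <;> omega

theorem IsCh.inj2 {T : ℕ} {w : ℕ → Bool} {E : Finset (ℕ × ℕ)} (h : IsCh T w E) :
    Set.InjOn (Prod.snd : ℕ × ℕ → ℕ) E := by
  intro e he e' he' heq
  by_contra hne
  rcases h.nest e he e' he' hne with h1 | h1 <;> omega

theorem Tex.pad_chain (h : Tex K G g R L s P) (c : ℝ) (hc1 : mu G g ≤ c) (hc2 : (1 - uu G g) / 2 ≤ c)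
    {T : ℕ} (hT : K * L ≤ T) (E : Finset (ℕ × ℕ)) (hE : IsCh T (pw K G g L s P T) E)
    (hE2 : ∀ e ∈ E, e.2 ≤ 2 * T) :
    (E.card : ℝ) ≤ 4 * ((T : ℝ) - K * L) + 1 + c * (K * L) + (16 * K + 20) * (K * L) / R + 2 * L := by
  classical
  have hN0 : 0 < K * L := Nat.mul_pos h.hK h.hL
  have hT0 : 0 < T := by omega
  set N := K * L with hN
  set E1 := E.filter fun e => N ≤ e.1 % T with hE1
  set E' := E.filter fun e => ¬ N ≤ e.1 % T with hE'
  set E3 := E'.filter fun e => N ≤ e.2 % T with hE3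
  set E4 := E'.filter fun e => ¬ N ≤ e.2 % T with hE4
  have s1 : E1.card + E'.card = E.card := Finset.card_filter_add_card_filter_not _
  have s2 : E3.card + E4.card = E'.card := Finset.card_filter_add_card_filter_not _
  have sub' : E' ⊆ E := Finset.filter_subset _ _
  have sub3 : E3 ⊆ E := (Finset.filter_subset _ _).trans sub'
  have sub4 : E4 ⊆ E := (Finset.filter_subset _ _).trans sub'
  have c1 : E1.card ≤ 2 * (T - N) := by
    apply bad_card hN0 E1 Prod.fst (hE.inj1.mono (by exact_mod_cast Finset.filter_subset _ _))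
    · intro e he
      have he' := Finset.filter_subset _ _ he
      have := hE.lt e he'
      have := hE2 e he'
      omega
    · intro e he
      exact (mem_filter.mp he).2
  have c3 : E3.card ≤ 2 * (T - N) := by
    apply bad_card hN0 E3 Prod.snd (hE.inj2.mono (by exact_mod_cast sub3))
    · intro e he
      exact hE2 e (sub3 he)
    · intro e he
      exact (mem_filter.mp he).2
  have good1 : ∀ e ∈ E4, e.1 % T < N := fun e he =>
    not_le.mp (mem_filter.mp ((Finset.filter_subset _ _ : E4 ⊆ E') he)).2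
  have good2 : ∀ e ∈ E4, e.2 % T < N := fun e he => not_le.mp (mem_filter.mp he).2
  have hpw : ∀ z, z % T < N → pw K G g L s P T z = wd K G g L s P (ph N T z) := by
    intro z hz
    unfold pw ph
    rw [if_pos hz, hN, h.wd_mod]
  have hinj : Set.InjOn (fun e : ℕ × ℕ => (ph N T e.1, ph N T e.2)) E4 := by
    intro e he e' he' heq
    by_contra hne
    have he'' : ph N T e.1 = ph N T e'.1 := (Prod.mk.inj heq).1
    rcases hE.nest e (sub4 he) e' (sub4 he') hne with h1 | h1
    · have := ph_lt hT0 h1.1 (good1 e he)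
      omega
    · have := ph_lt hT0 h1.1 (good1 e' he')
      omega
  have hch : IsCh N (wd K G g L s P) (E4.image fun e : ℕ × ℕ => (ph N T e.1, ph N T e.2)) := by
    refine ⟨?_, ?_, ?_, ?_⟩
    · intro e he
      obtain ⟨f, hf, rfl⟩ := mem_image.mp he
      exact ph_lt hT0 (hE.lt f (sub4 hf)) (good1 f hf)
    · intro e he
      obtain ⟨f, hf, rfl⟩ := mem_image.mp he
      show ph N T f.2 < ph N T f.1 + N
      rw [← ph_add hT0]
      exact ph_lt hT0 (hE.lt' f (sub4 hf)) (good2 f hf)
    · intro e he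
      obtain ⟨f, hf, rfl⟩ := mem_image.mp he
      show wd K G g L s P (ph N T f.1) ≠ wd K G g L s P (ph N T f.2)
      rw [← hpw _ (good1 f hf), ← hpw _ (good2 f hf)]
      exact hE.alt f (sub4 hf)
    · intro e he e' he' hne
      obtain ⟨f, hf, rfl⟩ := mem_image.mp he
      obtain ⟨f', hf', rfl⟩ := mem_image.mp he'
      have hne' : f ≠ f' := fun hh => hne (by rw [hh])
      rcases hE.nest f (sub4 hf) f' (sub4 hf') hne' with h1 | h1
      · left
        exact ⟨ph_lt hT0 h1.1 (good1 f hf), ph_lt hT0 h1.2 (good2 f' hf')⟩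
      · right
        exact ⟨ph_lt hT0 h1.1 (good1 f' hf'), ph_lt hT0 h1.2 (good2 f hf)⟩
  have hb := h.chain_bound c hc1 hc2 _ hch (by
    intro e he
    obtain ⟨f, hf, rfl⟩ := mem_image.mp he
    show ph N T f.2 ≤ 2 * N
    have h1 := hE2 f (sub4 hf)
    have h2 : ph N T (2 * T) = 2 * N := by
      unfold ph
      rw [Nat.mul_div_cancel _ hT0, Nat.mul_mod_left, add_zero]
    rcases Nat.lt_or_ge f.2 (2 * T) with h3 | h3
    · rw [← h2]
      exact (ph_lt hT0 h3 (good2 f hf)).le
    · have : f.2 = 2 * T := le_antisymm h1 h3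
      rw [this, h2])
  rw [Finset.card_image_of_injOn hinj] at hb
  have s3 : (E.card : ℝ) = (E1.card : ℝ) + (E3.card : ℝ) + (E4.card : ℝ) := by
    rw [← s1, ← s2]; push_cast; ring
  have d1 : (E1.card : ℝ) ≤ 2 * ((T : ℝ) - N) := by
    have : (E1.card : ℝ) ≤ ((2 * (T - N) : ℕ) : ℝ) := by exact_mod_cast c1
    rw [Nat.cast_mul, Nat.cast_sub hT] at this
    exact_mod_cast this
  have d3 : (E3.card : ℝ) ≤ 2 * ((T : ℝ) - N) := by
    have : (E3.card : ℝ) ≤ ((2 * (T - N) : ℕ) : ℝ) := by exact_mod_cast c3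
    rw [Nat.cast_mul, Nat.cast_sub hT] at this
    exact_mod_cast this
  have hNr : (N : ℝ) = K * L := by rw [hN]; push_cast; ring
  rw [hNr] at d1 d3
  rw [s3]
  linarith

end Pool.Agent.H95.NU
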