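import Pool.Agent.H95.NU.Defs

/-!
# Upper bound, prefix sums
-/

namespace Pool.Agent.H95.NU

open Finset

theorem ar_of_bounds {K L a z : ℕ} (h1 : a * L ≤ z) (h2 : z < (a + 1) * L) :
    ar K L z = a % K := by
  unfold ar
  have hL : 0 < L := by
    rcases Nat.eq_zero_or_pos L with h | h
    · subst h; omega
    · exact h
  have : z / L = a := by
    apply Nat.div_eq_of_lt_le
    · exact h1
    · exact h2
  rw [this]

theorem prefix_zero (K L : ℕ) (b : ℕ → ℕ) (δ : ℕ → ℝ) (hK : 0 < K) (hL : 0 < L)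
    (hb : ∀ i, i < K → 0 < b i) (hd : ∀ i, i < K → b i ∣ L)
    (hz : ∀ c i, i < K → ar K L (c * b i) = i → ∑ v ∈ range (b i), δ (c * b i + v) = 0) :
    ∀ a c, a * L ≤ c * b (a % K) → c * b (a % K) ≤ (a + 1) * L →
      ∑ v ∈ range (c * b (a % K)), δ v = 0 := by
  have step : ∀ a, (∑ v ∈ range (a * L), δ v = 0) → ∀ c, a * L ≤ c * b (a % K) →
      c * b (a % K) ≤ (a + 1) * L → ∑ v ∈ range (c * b (a % K)), δ v = 0 := by
    intro a ha
    have hi : a % K < K := Nat.mod_lt _ hK
    obtain ⟨q, hq⟩ := hd (a % K) hi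
    have hbp := hb (a % K) hi
    have e0 : a * L = (a * q) * b (a % K) := by rw [hq]; ring
    intro c hc
    rw [e0] at hc
    have hc' : a * q ≤ c := Nat.le_of_mul_le_mul_right hc hbp
    induction c, hc' using Nat.le_induction with
    | base => intro _; rw [← e0]; exact ha
    | succ c hc' ih =>
      intro h2
      have h3 : c * b (a % K) < (a + 1) * L := by
        have : c * b (a % K) + b (a % K) = (c + 1) * b (a % K) := by ring
        omega
      have h4 : a * q * b (a % K) ≤ c * b (a % K) := Nat.mul_le_mul_right _ hc'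
      have h5 := ih h4 h3.le
      have h6 : (c + 1) * b (a % K) = c * b (a % K) + b (a % K) := by ring
      rw [h6, Finset.sum_range_add, h5, zero_add]
      exact hz c (a % K) hi (ar_of_bounds (by rw [e0]; exact h4) h3)
  have arc : ∀ a, ∑ v ∈ range (a * L), δ v = 0 := by
    intro a
    induction a with
    | zero => simp
    | succ a ih =>
      obtain ⟨q, hq⟩ := hd (a % K) (Nat.mod_lt _ hK)
      have e1 : (a + 1) * L = ((a + 1) * q) * b (a % K) := by
        conv_lhs => rw [hq]
        ring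
      have e2 := step a ih ((a + 1) * q) (by rw [← e1]; exact Nat.mul_le_mul_right _ (by omega)) (by rw [← e1])
      rw [← e1] at e2
      exact e2
  exact fun a => step a (arc a)

theorem prefix_bound (K L : ℕ) (b : ℕ → ℕ) (δ : ℕ → ℝ) (hK : 0 < K) (hL : 0 < L)
    (hb : ∀ i, i < K → 0 < b i) (hd : ∀ i, i < K → b i ∣ L)
    (hz : ∀ c i, i < K → ar K L (c * b i) = i → ∑ v ∈ range (b i), δ (c * b i + v) = 0)
    (h1 : ∀ z, |δ z| ≤ 1) (z : ℕ) :
    |∑ v ∈ range z, δ v| ≤ b (ar K L z) ∧ |∑ v ∈ range (z + 1), δ v| ≤ b (ar K L z) := by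
  have key : ∀ v, v ≤ b (ar K L z) →
      |∑ v ∈ range (z / b (ar K L z) * b (ar K L z) + v), δ v| ≤ b (ar K L z) := by
    intro v hv
    have hi : z / L % K < K := Nat.mod_lt _ hK
    obtain ⟨q, hq⟩ := hd (z / L % K) hi
    have hbp := hb (z / L % K) hi
    have e1 : z / L * L ≤ z := Nat.div_mul_le_self z L
    have e2 : z < (z / L + 1) * L := by
      have := Nat.lt_succ_self (z / L)
      rw [Nat.div_lt_iff_lt_mul hL] at this
      exact this
    have e3 : z / b (z / L % K) * b (z / L % K) ≤ z := Nat.div_mul_le_self _ _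
    have e4 : z / L * L ≤ z / b (z / L % K) * b (z / L % K) := by
      have e5 : z / L * L = (z / L * q) * b (z / L % K) := by
        conv_lhs => rw [hq]
        conv_lhs => rw [← hq]
        conv_rhs => rw [mul_assoc, mul_comm q, ← hq]
      rw [e5]
      apply Nat.mul_le_mul_right
      rw [Nat.le_div_iff_mul_le hbp, ← e5]
      exact e1
    have e6 := prefix_zero K L b δ hK hL hb hd hz (z / L) (z / b (z / L % K)) e4 (e3.trans e2.le)
    unfold ar
    unfold ar at hv
    rw [Finset.sum_range_add, e6, zero_add]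
    calc |∑ x ∈ range v, δ (z / b (z / L % K) * b (z / L % K) + x)|
        ≤ ∑ x ∈ range v, |δ (z / b (z / L % K) * b (z / L % K) + x)| := Finset.abs_sum_le_sum_abs _ _
      _ ≤ ∑ x ∈ range v, (1 : ℝ) := Finset.sum_le_sum fun x _ => h1 _
      _ = v := by simp
      _ ≤ b (z / L % K) := by exact_mod_cast hv
  have hbp : 0 < b (ar K L z) := hb _ (Nat.mod_lt _ hK)
  have hm := Nat.mod_lt z hbp
  have e7 : z / b (ar K L z) * b (ar K L z) + z % b (ar K L z) = z := Nat.div_add_mod' _ _
  refine ⟨?_, ?_⟩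
  · have := key (z % b (ar K L z)) hm.le
    rwa [e7] at this
  · have := key (z % b (ar K L z) + 1) hm
    rwa [← add_assoc, e7] at this

end Pool.Agent.H95.NU
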