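import Pool.Agent.H95.NU.Cost

/-!
# Upper bound, one step
-/

namespace Pool.Agent.H95.NU

open Finset

variable {K G g R L : ℕ} {s P : ℕ → ℕ}

theorem Tex.SF_inc (h : Tex K G g R L s P) (β : Bool) {p q z : ℕ} (h1 : p ≤ z) (h2 : z < q) :
    qq G g (tau K L P z) (wd K G g L s P z) β ≤
      mu G g * ((q : ℝ) - p) + SF K G g L s P β q - SF K G g L s P β p := by
  have hpq : p ≤ q := by omega
  have e1 : ∑ v ∈ Ico p q, dF K G g L s P β v = SF K G g L s P β q - SF K G g L s P β p := by
    unfold SF
    exact Finset.sum_Ico_eq_sub _ hpq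
  have e2 : ∑ v ∈ Ico p q, dF K G g L s P β v =
      ∑ v ∈ Ico p q, qq G g (tau K L P v) (wd K G g L s P v) β - mu G g * ((q : ℝ) - p) := by
    unfold dF
    rw [Finset.sum_sub_distrib, Finset.sum_const, Nat.card_Ico, nsmul_eq_mul, Nat.cast_sub hpq]
    ring
  have e3 : qq G g (tau K L P z) (wd K G g L s P z) β ≤
      ∑ v ∈ Ico p q, qq G g (tau K L P v) (wd K G g L s P v) β :=
    Finset.single_le_sum (f := fun v => qq G g (tau K L P v) (wd K G g L s P v) β)
      (fun v _ => h.qq_nonneg _ _ _) (mem_Ico.mpr ⟨h1, h2⟩)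
  linarith

theorem Tex.SH_inc (h : Tex K G g R L s P) (θ : Bool) {p q z : ℕ} (h1 : p ≤ z) (h2 : z < q) :
    (1 - uu G g) * (if wd K G g L s P z = θ then 1 else 0) ≤
      (1 - uu G g) / 2 * ((q : ℝ) - p) + SH K G g L s P θ q - SH K G g L s P θ p := by
  have hpq : p ≤ q := by omega
  have hu := h.uu_lt
  have e1 : ∑ v ∈ Ico p q, dH K G g L s P θ v = SH K G g L s P θ q - SH K G g L s P θ p := by
    unfold SH
    exact Finset.sum_Ico_eq_sub _ hpq
  have e2 : ∑ v ∈ Ico p q, dH K G g L s P θ v =
      ∑ v ∈ Ico p q, (1 - uu G g) * (if wd K G g L s P v = θ then (1 : ℝ) else 0) -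
        (1 - uu G g) / 2 * ((q : ℝ) - p) := by
    have : ∀ v ∈ Ico p q, dH K G g L s P θ v =
        (1 - uu G g) * (if wd K G g L s P v = θ then (1 : ℝ) else 0) - (1 - uu G g) / 2 := by
      intro v _
      unfold dH
      ring
    rw [Finset.sum_congr rfl this, Finset.sum_sub_distrib, Finset.sum_const, Nat.card_Ico,
      nsmul_eq_mul, Nat.cast_sub hpq]
    ring
  have e3 : (1 - uu G g) * (if wd K G g L s P z = θ then (1 : ℝ) else 0) ≤
      ∑ v ∈ Ico p q, (1 - uu G g) * (if wd K G g L s P v = θ then (1 : ℝ) else 0) :=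
    Finset.single_le_sum (f := fun v => (1 - uu G g) * (if wd K G g L s P v = θ then (1 : ℝ) else 0))
      (fun v _ => mul_nonneg (by linarith) (by split_ifs <;> norm_num)) (mem_Ico.mpr ⟨h1, h2⟩)
  linarith

theorem Tex.edge (h : Tex K G g R L s P) {θ a b : Bool} (hab : a ≠ b) :
    1 ≤ qq G g θ a b + (1 - uu G g) * (if b = θ then 1 else 0) := by
  have hu := h.uu_lt
  unfold qq
  rcases Bool.eq_false_or_eq_true θ with h1 | h1 <;> rcases Bool.eq_false_or_eq_true a with h2 | h2 <;>
    rcases Bool.eq_false_or_eq_true b with h3 | h3 <;> simp_all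

/-- potential -/
noncomputable def Psi (K G g L : ℕ) (s P : ℕ → ℕ) (x y : ℕ) : ℝ :=
  if ar K L x < ar K L y then
    SF K G g L s P (wd K G g L s P y) (x + 1) - SH K G g L s P (tau K L P x) y
  else SH K G g L s P (tau K L P y) (x + 1) - SF K G g L s P (wd K G g L s P x) y

theorem Tex.ar_lt (h : Tex K G g R L s P) (z : ℕ) : ar K L z < K := Nat.mod_lt _ h.hK

theorem Tex.GsP0 (h : Tex K G g R L s P) {i : ℕ} (hi : i < K) : G * s i ≤ P 0 :=
  (Nat.le_of_dvd (h.P_pos hi) (h.d1 i hi)).trans (h.P0 i hi)

theorem Tex.SF_P0 (h : Tex K G g R L s P) (β : Bool) (z : ℕ) :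
    |SF K G g L s P β z| ≤ P 0 ∧ |SF K G g L s P β (z + 1)| ≤ P 0 := by
  have h1 := h.SF_bound β z
  have h2 : ((G * s (ar K L z) : ℕ) : ℝ) ≤ P 0 := by exact_mod_cast h.GsP0 (h.ar_lt z)
  exact ⟨h1.1.trans h2, h1.2.trans h2⟩

theorem Tex.SH_P0 (h : Tex K G g R L s P) (θ : Bool) (z : ℕ) :
    |SH K G g L s P θ z| ≤ 2 * P 0 ∧ |SH K G g L s P θ (z + 1)| ≤ 2 * P 0 := by
  have h1 := h.SH_bound θ z
  have h2 : ((2 * P (ar K L z) : ℕ) : ℝ) ≤ 2 * P 0 := by
    have := h.P0 _ (h.ar_lt z)
    exact_mod_cast Nat.mul_le_mul_left 2 this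
  exact ⟨h1.1.trans h2, h1.2.trans h2⟩

theorem Tex.Psi_le (h : Tex K G g R L s P) (x y : ℕ) : |Psi K G g L s P x y| ≤ 3 * P 0 := by
  unfold Psi
  split_ifs
  · have h1 := (h.SF_P0 (wd K G g L s P y) x).2
    have h2 := (h.SH_P0 (tau K L P x) y).1
    rw [abs_le] at *
    constructor <;> linarith
  · have h1 := (h.SH_P0 (tau K L P y) x).2
    have h2 := (h.SF_P0 (wd K G g L s P x) y).1
    rw [abs_le] at *
    constructor <;> linarith

theorem Tex.s_ratio (h : Tex K G g R L s P) {i j : ℕ} (hij : i < j) (hj : j < K) :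
    2 * ((G * s i : ℕ) : ℝ) ≤ 2 * ((G * s j : ℕ) : ℝ) / R := by
  have hR : (0 : ℝ) < R := by exact_mod_cast h.hR
  rw [le_div_iff₀ hR]
  have := h.inc i j hij hj
  have h1 : (R : ℝ) * s i ≤ s j := by exact_mod_cast this
  have h2 : (0 : ℝ) ≤ G := by positivity
  push_cast
  nlinarith

theorem Tex.P_ratio (h : Tex K G g R L s P) {i j : ℕ} (hij : i < j) (hj : j < K) :
    2 * ((2 * P j : ℕ) : ℝ) ≤ 4 * (P i : ℝ) / R := by
  have hR : (0 : ℝ) < R := by exact_mod_cast h.hR
  rw [le_div_iff₀ hR]
  have := h.dec i j hij hj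
  have h1 : (R : ℝ) * P j ≤ P i := by exact_mod_cast this
  push_cast
  nlinarith

theorem Tex.step (h : Tex K G g R L s P) {x y x' y' : ℕ} (hx : x < x') (hy : y' < y)
    (hw : wd K G g L s P x' ≠ wd K G g L s P y') (hne' : ar K L x' ≠ ar K L y')
    (c : ℝ) (hc1 : mu G g ≤ c) (hc2 : (1 - uu G g) / 2 ≤ c) :
    1 ≤ c * (((x' : ℝ) - x) + ((y : ℝ) - y')) + Psi K G g L s P x' y' - Psi K G g L s P x y +
      (AA K G g R L s P x' - AA K G g R L s P x) + (AA K G g R L s P y - AA K G g R L s P y') := by
  have hxr : (0 : ℝ) ≤ (x' : ℝ) - x := by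
    have : (x : ℝ) < x' := by exact_mod_cast hx
    linarith
  have hyr : (0 : ℝ) ≤ (y : ℝ) - y' := by
    have : (y' : ℝ) < y := by exact_mod_cast hy
    linarith
  have hm := h.mu_pos
  have hu := h.uu_lt
  have hcx1 := mul_le_mul_of_nonneg_right hc1 hxr
  have hcx2 := mul_le_mul_of_nonneg_right hc2 hxr
  have hcy1 := mul_le_mul_of_nonneg_right hc1 hyr
  have hcy2 := mul_le_mul_of_nonneg_right hc2 hyr
  have hPsi := h.Psi_le x y
  have mx := AA_mono (K := K) (G := G) (g := g) (R := R) (L := L) (s := s) (P := P) hx.le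
  have my := AA_mono (K := K) (G := G) (g := g) (R := R) (L := L) (s := s) (P := P) hy.le
  rcases Nat.lt_or_ge (ar K L x') (ar K L y') with hlt | hge
  · -- `x` side fine
    have i1 := h.SF_inc (wd K G g L s P y') (p := x + 1) (q := x' + 1) (z := x') (by omega) (by omega)
    have i2 := h.SH_inc (tau K L P x') (p := y') (q := y) (z := y') le_rfl hy
    have i3 := h.edge (θ := tau K L P x') hw
    have e1 : Psi K G g L s P x' y' = SF K G g L s P (wd K G g L s P y') (x' + 1) -
        SH K G g L s P (tau K L P x') y' := by unfold Psi; rw [if_pos hlt]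
    rw [e1]
    push_cast at i1
    suffices hs : SH K G g L s P (tau K L P x') y - SF K G g L s P (wd K G g L s P y') (x + 1) ≤
        - Psi K G g L s P x y + (AA K G g R L s P x' - AA K G g R L s P x) +
          (AA K G g R L s P y - AA K G g R L s P y') by
      have e2 : mu G g * ((x' : ℝ) + 1 - (x + 1)) = mu G g * ((x' : ℝ) - x) := by ring
      rw [e2] at i1
      linarith
    by_cases hX : x / L = x' / L
    · by_cases hY : y / L = y' / L
      · have ax : ar K L x = ar K L x' := by unfold ar; rw [hX]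
        have ay : ar K L y = ar K L y' := by unfold ar; rw [hY]
        have e3 : Psi K G g L s P x y = SF K G g L s P (wd K G g L s P y) (x + 1) -
            SH K G g L s P (tau K L P x) y := by
          unfold Psi; rw [if_pos (by rw [ax, ay]; exact hlt)]
        rw [e3]
        have k1 : SF K G g L s P (wd K G g L s P y) (x + 1) - SF K G g L s P (wd K G g L s P y') (x + 1) ≤
            AA K G g R L s P y - AA K G g R L s P y' := by
          by_cases hwy : wd K G g L s P y' = wd K G g L s P y
          · rw [hwy]; linarith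
          · have j1 := h.AA_wd hy.le hY.symm hwy
            have j2 := (h.SF_bound (wd K G g L s P y) x).2
            have j3 := (h.SF_bound (wd K G g L s P y') x).2
            have j4 := h.s_ratio (i := ar K L x) (j := ar K L y') (by rw [ax]; exact hlt) (h.ar_lt _)
            rw [abs_le] at j2 j3
            linarith
        have k2 : SH K G g L s P (tau K L P x') y - SH K G g L s P (tau K L P x) y ≤
            AA K G g R L s P x' - AA K G g R L s P x := by
          by_cases hwx : tau K L P x = tau K L P x'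
          · rw [hwx]; linarith
          · have j1 := AA_tau (G := G) (g := g) (R := R) (s := s) h.hK hx.le hX hwx
            have j2 := (h.SH_bound (tau K L P x') y).1
            have j3 := (h.SH_bound (tau K L P x) y).1
            have j4 := h.P_ratio (i := ar K L x) (j := ar K L y) (by rw [ax, ay]; exact hlt) (h.ar_lt _)
            rw [abs_le] at j2 j3
            linarith
        linarith
      · have j1 := AA_arc (K := K) (G := G) (g := g) (R := R) (s := s) (P := P) hy.le (Ne.symm hY)
        have j2 := (h.SH_P0 (tau K L P x') y).1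
        have j3 := (h.SF_P0 (wd K G g L s P y') x).2
        rw [abs_le] at j2 j3 hPsi
        linarith
    · have j1 := AA_arc (K := K) (G := G) (g := g) (R := R) (s := s) (P := P) hx.le hX
      have j2 := (h.SH_P0 (tau K L P x') y).1
      have j3 := (h.SF_P0 (wd K G g L s P y') x).2
      rw [abs_le] at j2 j3 hPsi
      linarith
  · -- `y` side fine
    have hlt : ar K L y' < ar K L x' := lt_of_le_of_ne hge (Ne.symm hne')
    have i1 := h.SF_inc (wd K G g L s P x') (p := y') (q := y) (z := y') le_rfl hy
    have i2 := h.SH_inc (tau K L P y') (p := x + 1) (q := x' + 1) (z := x') (by omega) (by omega)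
    have i3 := h.edge (θ := tau K L P y') (Ne.symm hw)
    have e1 : Psi K G g L s P x' y' = SH K G g L s P (tau K L P y') (x' + 1) -
        SF K G g L s P (wd K G g L s P x') y' := by unfold Psi; rw [if_neg (by omega)]
    rw [e1]
    push_cast at i2
    suffices hs : SF K G g L s P (wd K G g L s P x') y - SH K G g L s P (tau K L P y') (x + 1) ≤
        - Psi K G g L s P x y + (AA K G g R L s P x' - AA K G g R L s P x) +
          (AA K G g R L s P y - AA K G g R L s P y') by
      have e2 : (1 - uu G g) / 2 * ((x' : ℝ) + 1 - (x + 1)) = (1 - uu G g) / 2 * ((x' : ℝ) - x) := by ring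
      rw [e2] at i2
      linarith
    by_cases hX : x / L = x' / L
    · by_cases hY : y / L = y' / L
      · have ax : ar K L x = ar K L x' := by unfold ar; rw [hX]
        have ay : ar K L y = ar K L y' := by unfold ar; rw [hY]
        have e3 : Psi K G g L s P x y = SH K G g L s P (tau K L P y) (x + 1) -
            SF K G g L s P (wd K G g L s P x) y := by
          unfold Psi; rw [if_neg (by rw [ax, ay]; omega)]
        rw [e3]
        have k1 : SH K G g L s P (tau K L P y) (x + 1) - SH K G g L s P (tau K L P y') (x + 1) ≤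
            AA K G g R L s P y - AA K G g R L s P y' := by
          by_cases hwy : tau K L P y' = tau K L P y
          · rw [hwy]; linarith
          · have j1 := AA_tau (G := G) (g := g) (R := R) (s := s) h.hK hy.le hY.symm hwy
            have j2 := (h.SH_bound (tau K L P y) x).2
            have j3 := (h.SH_bound (tau K L P y') x).2
            have j4 := h.P_ratio (i := ar K L y') (j := ar K L x) (by rw [ax]; exact hlt) (h.ar_lt _)
            rw [abs_le] at j2 j3
            linarith
        have k2 : SF K G g L s P (wd K G g L s P x') y - SF K G g L s P (wd K G g L s P x) y ≤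
            AA K G g R L s P x' - AA K G g R L s P x := by
          by_cases hwx : wd K G g L s P x = wd K G g L s P x'
          · rw [hwx]; linarith
          · have j1 := h.AA_wd hx.le hX hwx
            have j2 := (h.SF_bound (wd K G g L s P x') y).1
            have j3 := (h.SF_bound (wd K G g L s P x) y).1
            have j4 := h.s_ratio (i := ar K L y) (j := ar K L x) (by rw [ax, ay]; exact hlt) (h.ar_lt _)
            rw [abs_le] at j2 j3
            linarith
        linarith
      · have j1 := AA_arc (K := K) (G := G) (g := g) (R := R) (s := s) (P := P) hy.le (Ne.symm hY)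
        have j2 := (h.SF_P0 (wd K G g L s P x') y).1
        have j3 := (h.SH_P0 (tau K L P y') x).2
        rw [abs_le] at j2 j3 hPsi
        linarith
    · have j1 := AA_arc (K := K) (G := G) (g := g) (R := R) (s := s) (P := P) hx.le hX
      have j2 := (h.SF_P0 (wd K G g L s P x') y).1
      have j3 := (h.SH_P0 (tau K L P y') x).2
      rw [abs_le] at j2 j3 hPsi
      linarith

end Pool.Agent.H95.NU
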