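import Pool.Agent.H95.NU.Word
import Pool.Agent.H95.NU.Config

/-!
# Upper bound, summary
-/

namespace Pool.Agent.H95.NU

open Finset Pool.Agent.H95.NP

/-- for large `n` there is a configuration of `n` red and `n` blue points on the unit circle all of whose noncrossing
alternating paths have at most `(4 - 2 √2 + ε) n` vertices -/
theorem upper (ε : ℝ) (hε : 0 < ε) : ∃ n0 : ℕ, ∀ n, n0 ≤ n →
    ∃ R B : Finset ℂ, R.card = n ∧ B.card = n ∧ Disjoint R B ∧ (∀ z ∈ R ∪ B, ‖z - 0‖ = 1) ∧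
      ∀ (k : ℕ) (p : ℕ → ℂ), (∀ i, i < k → p i ∈ R ∪ B) →
        (∀ i j, i < k → j < k → p i = p j → i = j) →
        (∀ i, i + 1 < k → (p i ∈ R ∧ p (i + 1) ∈ B) ∨ (p i ∈ B ∧ p (i + 1) ∈ R)) →
        (∀ i j, i < j → j + 1 < k → ∀ z, z ∈ segment ℝ (p i) (p (i + 1)) →
          z ∈ segment ℝ (p j) (p (j + 1)) → j = i + 1 ∧ z = p j) →
        (k : ℝ) ≤ (4 - 2 * √2 + ε) * n := by
  obtain ⟨n0, h0⟩ := upper_word ε hε
  refine ⟨max n0 1, fun n hn => ?_⟩
  have hn0 : n0 ≤ n := (le_max_left _ _).trans hn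
  have hn1 : 1 ≤ n := (le_max_right _ _).trans hn
  obtain ⟨w, hper, hcount, β, C, hβ, hβT, hβ2, hE⟩ := h0 n hn0
  obtain ⟨R, B, hR, hB, hRB, hc, hp⟩ := config n hn1 w hper hcount β C hβ hβT hβ2
  refine ⟨R, B, hR, hB, hRB, hc, fun k p h1 h2 h3 h4 => ?_⟩
  obtain ⟨E, hE1, hE2, hk⟩ := hp k p h1 h2 h3 h4
  have := hE E hE1 hE2
  have hk' : (k : ℝ) ≤ 2 * (E.card : ℝ) + 2 * C + 2 := by exact_mod_cast hk
  linarith

/-- a configuration exists for every `n ≥ 1` -/
theorem exists_config (n : ℕ) (hn : 1 ≤ n) :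
    ∃ R B : Finset ℂ, R.card = n ∧ B.card = n ∧ Disjoint R B ∧ (∀ z ∈ R ∪ B, ‖z - 0‖ = 1) := by
  have hinj : Set.InjOn (rp n) (range (2 * n) : Finset ℕ) := by
    intro a ha b hb h
    exact rp_inj hn (mem_range.mp ha) (mem_range.mp hb) h
  have h1 : (range n : Finset ℕ) ⊆ range (2 * n) := Finset.range_subset_range.mpr (by omega)
  have h2 : Ico n (2 * n) ⊆ range (2 * n) := by
    intro z hz
    exact mem_range.mpr (mem_Ico.mp hz).2
  refine ⟨(range n).image (rp n), (Ico n (2 * n)).image (rp n), ?_, ?_, ?_, ?_⟩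
  · rw [Finset.card_image_of_injOn (hinj.mono (by exact_mod_cast h1)), card_range]
  · rw [Finset.card_image_of_injOn (hinj.mono (by exact_mod_cast h2)), Nat.card_Ico]
    omega
  · rw [Finset.disjoint_left]
    intro z hz hz'
    obtain ⟨a, ha, rfl⟩ := mem_image.mp hz
    obtain ⟨b, hb, hab⟩ := mem_image.mp hz'
    have e1 := mem_range.mp ha
    have e2 := mem_Ico.mp hb
    have := rp_inj hn e2.2 (by omega) hab
    omega
  · intro z hz
    rw [sub_zero]
    rcases mem_union.mp hz with h | h <;> obtain ⟨a, _, rfl⟩ := mem_image.mp h <;> exact circ_norm _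

end Pool.Agent.H95.NU
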