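import Pool.Agent.H95.NU.PadChain

/-!
# Upper bound, choice of the parameters
-/

namespace Pool.Agent.H95.NU

open Finset

theorem tex_exists (K G g M : ℕ) (hK : 0 < K) (hg : 0 < g) (hG : 2 * g < G) (hM : 0 < M) :
    Tex K G g (K ^ 2) (2 * G * K * (K ^ 2) ^ (2 * K + 1) * M) (fun i => K * (K ^ 2) ^ i)
      (fun i => G * K * (K ^ 2) ^ (2 * K - i)) where
  hK := hK
  hg := hg
  hG := hG
  hL := by
    have : 0 < G := by omega
    positivity
  hR := by positivity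
  hs i _ := by positivity
  d1 i hi := by
    have : G * (K * (K ^ 2) ^ i) = G * K * (K ^ 2) ^ i := by ring
    show G * (K * (K ^ 2) ^ i) ∣ G * K * (K ^ 2) ^ (2 * K - i)
    rw [this]
    exact Nat.mul_dvd_mul_left _ (pow_dvd_pow _ (by omega))
  d2 i hi := by
    show 2 * (G * K * (K ^ 2) ^ (2 * K - i)) ∣ 2 * G * K * (K ^ 2) ^ (2 * K + 1) * M
    have e1 : 2 * (G * K * (K ^ 2) ^ (2 * K - i)) = 2 * G * K * (K ^ 2) ^ (2 * K - i) := by ring
    rw [e1]
    exact Dvd.dvd.mul_right (Nat.mul_dvd_mul_left _ (pow_dvd_pow _ (by omega))) _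
  inc i j hij hj := by
    show K ^ 2 * (K * (K ^ 2) ^ i) ≤ K * (K ^ 2) ^ j
    have e1 : K ^ 2 * (K * (K ^ 2) ^ i) = K * (K ^ 2) ^ (i + 1) := by ring
    rw [e1]
    exact Nat.mul_le_mul_left _ (Nat.pow_le_pow_right (by positivity) (by omega))
  dec i j hij hj := by
    show K ^ 2 * (G * K * (K ^ 2) ^ (2 * K - j)) ≤ G * K * (K ^ 2) ^ (2 * K - i)
    have e1 : K ^ 2 * (G * K * (K ^ 2) ^ (2 * K - j)) = G * K * (K ^ 2) ^ (2 * K - j + 1) := by ring
    rw [e1]
    exact Nat.mul_le_mul_left _ (Nat.pow_le_pow_right (by positivity) (by omega))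
  P0 i hi := by
    show G * K * (K ^ 2) ^ (2 * K - i) ≤ G * K * (K ^ 2) ^ (2 * K - 0)
    exact Nat.mul_le_mul_left _ (Nat.pow_le_pow_right (by positivity) (by omega))
  PL := by
    show K ^ 2 * (G * K * (K ^ 2) ^ (2 * K - 0)) ≤ 2 * G * K * (K ^ 2) ^ (2 * K + 1) * M
    have e1 : K ^ 2 * (G * K * (K ^ 2) ^ (2 * K - 0)) = G * K * (K ^ 2) ^ (2 * K + 1) := by
      rw [Nat.sub_zero]; ring
    rw [e1]
    have e2 : G * K * (K ^ 2) ^ (2 * K + 1) * 1 ≤ G * K * (K ^ 2) ^ (2 * K + 1) * (2 * M) :=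
      Nat.mul_le_mul_left _ (by omega)
    calc G * K * (K ^ 2) ^ (2 * K + 1) = G * K * (K ^ 2) ^ (2 * K + 1) * 1 := by ring
      _ ≤ _ := e2
      _ = _ := by ring

theorem exists_density (η : ℝ) (hη : 0 < η) :
    ∃ G g : ℕ, 0 < g ∧ 2 * g < G ∧ mu G g < 1 - √2 / 2 + η ∧ (1 - uu G g) / 2 ≤ mu G g := by
  have s2 : (√2 : ℝ) ^ 2 = 2 := Real.sq_sqrt (by norm_num)
  have s0 : (0 : ℝ) ≤ √2 := Real.sqrt_nonneg _
  have s1 : (1 : ℝ) < √2 := by nlinarith
  have s3 : (√2 : ℝ) < 2 := by nlinarith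
  obtain ⟨q, h1, h2⟩ := exists_rat_btwn (show (1 - √2 / 2 : ℝ) < min (1 / 2) (1 - √2 / 2 + η) by
    apply lt_min <;> linarith)
  have h3 := lt_of_lt_of_le h2 (min_le_left _ _)
  have h4 := lt_of_lt_of_le h2 (min_le_right _ _)
  have hq0 : (0 : ℝ) < q := by linarith
  have hq0' : (0 : ℚ) < q := by exact_mod_cast hq0
  have hnum : 0 < q.num := Rat.num_pos.mpr hq0'
  obtain ⟨g, hg⟩ := Int.eq_ofNat_of_zero_le hnum.le
  have hden : (0 : ℝ) < (q.den : ℝ) := by exact_mod_cast q.den_pos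
  have hqe : (q : ℝ) = (g : ℝ) / q.den := by
    have e1 : (q : ℝ) = (q.num : ℝ) / (q.den : ℝ) := by
      exact_mod_cast (Rat.num_div_den q).symm
    rw [e1, hg]
    simp
  have hgpos : 0 < g := by
    have : (0 : ℤ) < (g : ℤ) := by rw [hg] at hnum; exact hnum
    exact_mod_cast this
  have hlt : 2 * g < q.den := by
    rw [hqe, div_lt_div_iff₀ hden (by norm_num)] at h3
    have : (2 : ℝ) * g < q.den := by linarith
    exact_mod_cast this
  refine ⟨q.den, g, hgpos, hlt, ?_, ?_⟩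
  · unfold mu
    rw [← hqe]
    exact h4
  · have hg0 : (0 : ℝ) < g := by exact_mod_cast hgpos
    have hlt' : (2 : ℝ) * g < q.den := by exact_mod_cast hlt
    have e1 : uu q.den g = q / (1 - q) := by
      unfold uu
      rw [hqe]
      have : (q.den : ℝ) - g ≠ 0 := by linarith
      have : (1 : ℝ) - g / q.den ≠ 0 := by
        rw [← hqe]; linarith
      field_simp
    have e2 : mu q.den g = q := by unfold mu; rw [hqe]
    rw [e1, e2]
    have h5 : (0 : ℝ) < 1 - q := by linarith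
    rw [div_le_iff₀ (by norm_num : (0 : ℝ) < 2), sub_le_iff_le_add, ← sub_le_iff_le_add', le_div_iff₀ h5]
    have h6 : (0 : ℝ) < q - (1 - √2 / 2) := by linarith
    nlinarith

theorem upper_word (ε : ℝ) (hε : 0 < ε) : ∃ n0 : ℕ, ∀ n, n0 ≤ n → ∃ w : ℕ → Bool,
    (∀ z, w (z + 2 * n) = w z) ∧ ((range (2 * n)).filter fun z => w z = true).card = n ∧
    ∃ (β : ℕ → ℕ) (C : ℕ), Monotone β ∧ (∀ z, β (z + 2 * n) = β z + C) ∧
      (∀ z z', z < z' → w z ≠ w z' → β z < β z') ∧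
      ∀ E, IsCh (2 * n) w E → (∀ e ∈ E, e.2 ≤ 2 * (2 * n)) →
        2 * (E.card : ℝ) + 2 * C + 2 ≤ (4 - 2 * √2 + ε) * n := by
  obtain ⟨G, g, hg, hG, hmu, huu⟩ := exists_density (ε / 12) (by positivity)
  obtain ⟨K, hK⟩ := exists_nat_gt (max 1 (468 / ε))
  have hK1 : (1 : ℝ) < K := lt_of_le_of_lt (le_max_left _ _) hK
  have hK2 : 468 / ε < (K : ℝ) := lt_of_le_of_lt (le_max_right _ _) hK
  have hK0 : 0 < K := by
    have : (0 : ℝ) < K := by linarith
    exact_mod_cast this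
  have hG0 : 0 < G := by omega
  set L0 := 2 * G * K * (K ^ 2) ^ (2 * K + 1) with hL0
  have hL0pos : 0 < L0 := by positivity
  set N0 := K * L0 with hN0
  have hN0pos : 0 < N0 := Nat.mul_pos hK0 hL0pos
  obtain ⟨n1, hn1⟩ := exists_nat_gt ((10 * N0 + 4) * 3 / ε)
  refine ⟨max n1 N0, fun n hn => ?_⟩
  have hn1' : n1 ≤ n := (le_max_left _ _).trans hn
  have hn2' : N0 ≤ n := (le_max_right _ _).trans hn
  set M := (2 * n) / N0 with hM
  have hMpos : 0 < M := Nat.div_pos (by omega) hN0pos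
  set L := L0 * M with hL
  have hT := tex_exists K G g M hK0 hg hG hMpos
  rw [← hL0] at hT
  rw [← hL] at hT
  set s : ℕ → ℕ := fun i => K * (K ^ 2) ^ i with hs
  set P : ℕ → ℕ := fun i => G * K * (K ^ 2) ^ (2 * K - i) with hP
  have hKL : K * L = M * N0 := by rw [hL, hN0]; ring
  have hle : K * L ≤ 2 * n := by
    rw [hKL]; exact Nat.div_mul_le_self _ _
  have hrem : 2 * n < K * L + N0 := by
    rw [hKL]
    have h1 := Nat.div_add_mod' (2 * n) N0
    have h2 := Nat.mod_lt (2 * n) hN0pos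
    rw [← hM] at h1
    omega
  have hDs : ∀ i, i < K → K ∣ s i := fun i _ => Dvd.intro _ rfl
  have h2n : 0 < 2 * n := by omega
  have hDN : K ∣ K * L := Dvd.intro _ rfl
  refine ⟨pw K G g L s P (2 * n), fun z => pw_period _ _, hT.pw_count hle, bd K L K (2 * n),
    K * L / K + (2 * n - K * L), bd_mono h2n hK0 hDN hle, fun z => bd_period h2n z,
    fun z z' hz hw => hT.bd_strict h2n hK0 hDs hle hz hw, ?_⟩
  intro E hE hE2
  have hb := hT.pad_chain (mu G g) le_rfl huu hle E hE hE2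
  have hC : ((K * L / K + (2 * n - K * L) : ℕ) : ℝ) = L + (2 * n - K * L) := by
    rw [Nat.mul_div_cancel_left _ hK0]
    push_cast [Nat.cast_sub hle]
    ring
  rw [hC]
  have hKr : (0 : ℝ) < K := by linarith
  have hLr : (0 : ℝ) < L := by exact_mod_cast hT.hL
  have hn0 : (0 : ℝ) ≤ n := by positivity
  have hrem' : (2 : ℝ) * n < K * L + N0 := by exact_mod_cast hrem
  have hle' : (K : ℝ) * L ≤ 2 * n := by exact_mod_cast hle
  have t1 : (16 * K + 20 : ℝ) * (K * L) / ((K ^ 2 : ℕ) : ℝ) ≤ 36 * L := by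
    push_cast
    rw [div_le_iff₀ (by positivity)]
    have : (16 * K + 20 : ℝ) ≤ 36 * K := by linarith
    have := mul_le_mul_of_nonneg_right this (by positivity : (0 : ℝ) ≤ K * L)
    nlinarith
  have hmuT := hT.mu_pos
  have t2 : mu G g * (K * L) ≤ mu G g * (2 * n) := mul_le_mul_of_nonneg_left hle' hmuT.le
  have t3 : mu G g * (2 * n) ≤ (1 - √2 / 2 + ε / 12) * (2 * n) :=
    mul_le_mul_of_nonneg_right hmu.le (by positivity)
  have t4 : (78 : ℝ) * L ≤ ε / 3 * n := by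
    have a1 : 468 < K * ε := by
      rw [div_lt_iff₀ hε] at hK2
      exact hK2
    have a2 : (468 : ℝ) * L ≤ K * ε * L := mul_le_mul_of_nonneg_right a1.le hLr.le
    have a3 : K * ε * L ≤ 2 * n * ε := by
      have := mul_le_mul_of_nonneg_right hle' hε.le
      nlinarith
    linarith
  have t5 : (10 * N0 + 4 : ℝ) ≤ ε / 3 * n := by
    have a1 : (10 * N0 + 4 : ℝ) * 3 / ε < n := lt_of_lt_of_le hn1 (by exact_mod_cast hn1')
    rw [div_lt_iff₀ hε] at a1
    linarith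
  have hcast : ((2 * n : ℕ) : ℝ) = 2 * n := by push_cast; ring
  rw [hcast] at hb
  have t6 : (1 - √2 / 2 + ε / 12) * (2 * (n : ℝ)) = 2 * n - √2 * n + ε * n / 6 := by ring
  have t7 : (4 - 2 * √2 + ε) * (n : ℝ) = 4 * n - 2 * (√2 * n) + ε * n := by ring
  rw [t6] at t3
  rw [t7]
  have t8 : ε / 3 * (n : ℝ) = ε * n / 3 := by ring
  rw [t8] at t4 t5
  linarith

end Pool.Agent.H95.NU
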