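import Pool.Agent.H95.NU.Pre

/-!
# Upper bound, zero sums over the blocks
-/

namespace Pool.Agent.H95.NU

open Finset

theorem div_block {b X c v : ℕ} (hb : 0 < b) (hd : b ∣ X) (hv : v < b) :
    (c * b + v) / X = (c * b) / X := by
  obtain ⟨q, rfl⟩ := hd
  rw [← Nat.div_div_eq_div_mul, ← Nat.div_div_eq_div_mul]
  congr 1
  rw [Nat.mul_div_cancel _ hb, mul_comm c b, Nat.mul_add_div hb, Nat.div_eq_of_lt hv, add_zero]

theorem mod_block {b c v : ℕ} (hv : v < b) : (c * b + v) % b = v := by
  rw [Nat.mul_comm, Nat.mul_add_mod, Nat.mod_eq_of_lt hv]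

variable {K G g R L : ℕ} {s P : ℕ → ℕ}

theorem Tex.mu_pos (h : Tex K G g R L s P) : 0 < mu G g := by
  have h1 := h.hg
  have h2 := h.hG
  unfold mu
  have : (0 : ℝ) < G := by exact_mod_cast (by omega : 0 < G)
  have : (0 : ℝ) < g := by exact_mod_cast h1
  positivity

theorem Tex.mu_lt (h : Tex K G g R L s P) : mu G g < 1 / 2 := by
  have h1 := h.hg
  have h2 := h.hG
  unfold mu
  have h3 : (0 : ℝ) < G := by exact_mod_cast (by omega : 0 < G)
  rw [div_lt_div_iff₀ h3 (by norm_num)]
  have : (2 : ℝ) * g < G := by exact_mod_cast h2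
  linarith

theorem Tex.uu_pos (h : Tex K G g R L s P) : 0 < uu G g := by
  have h1 := h.hg
  have h2 := h.hG
  unfold uu
  have h3 : (2 : ℝ) * g < G := by exact_mod_cast h2
  have h4 : (0 : ℝ) < g := by exact_mod_cast h1
  apply div_pos h4
  linarith

theorem Tex.uu_lt (h : Tex K G g R L s P) : uu G g < 1 := by
  have h1 := h.hg
  have h2 := h.hG
  unfold uu
  have h3 : (2 : ℝ) * g < G := by exact_mod_cast h2
  have h4 : (0 : ℝ) < g := by exact_mod_cast h1
  rw [div_lt_one (by linarith)]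
  linarith

theorem Tex.qq_nonneg (h : Tex K G g R L s P) (θ a β : Bool) : 0 ≤ qq G g θ a β := by
  unfold qq
  have := h.uu_pos
  split_ifs <;> linarith

theorem Tex.qq_le (h : Tex K G g R L s P) (θ a β : Bool) : qq G g θ a β ≤ 1 := by
  unfold qq
  have := h.uu_lt
  split_ifs <;> linarith

theorem Tex.dF_le (h : Tex K G g R L s P) (β : Bool) (z : ℕ) : |dF K G g L s P β z| ≤ 1 := by
  unfold dF
  have h1 := h.qq_nonneg (tau K L P z) (wd K G g L s P z) β
  have h2 := h.qq_le (tau K L P z) (wd K G g L s P z) β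
  have h3 := h.mu_pos
  have h4 := h.mu_lt
  rw [abs_le]
  constructor <;> linarith

theorem Tex.dH_le (h : Tex K G g R L s P) (θ : Bool) (z : ℕ) : |dH K G g L s P θ z| ≤ 1 := by
  unfold dH
  have h3 := h.uu_pos
  have h4 := h.uu_lt
  rw [abs_le]
  split_ifs <;> constructor <;> nlinarith

theorem Tex.Gs_pos (h : Tex K G g R L s P) {i : ℕ} (hi : i < K) : 0 < G * s i := by
  have := h.hs i hi
  have := h.hG
  exact Nat.mul_pos (by omega) (h.hs i hi)

theorem Tex.P_pos (h : Tex K G g R L s P) {i : ℕ} (hi : i < K) : 0 < P i := by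
  obtain ⟨q, hq⟩ := h.d2 i hi
  have := h.hL
  rcases Nat.eq_zero_or_pos (P i) with h0 | h0
  · rw [h0] at hq; omega
  · exact h0

theorem Tex.Gs_dvd (h : Tex K G g R L s P) {i : ℕ} (hi : i < K) : G * s i ∣ L :=
  (h.d1 i hi).trans ((Dvd.intro_left 2 rfl).trans (h.d2 i hi))

theorem Tex.P_dvd (h : Tex K G g R L s P) {i : ℕ} (hi : i < K) : P i ∣ L :=
  (Dvd.intro_left 2 rfl).trans (h.d2 i hi)

theorem Tex.dF_zero (h : Tex K G g R L s P) (β : Bool) (c i : ℕ) (hi : i < K)
    (hc : ar K L (c * (G * s i)) = i) :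
    ∑ v ∈ range (G * s i), dF K G g L s P β (c * (G * s i) + v) = 0 := by
  have hb := h.Gs_pos hi
  set b := G * s i with hbdef
  set t0 := tau K L P (c * b) with ht0
  have har : ∀ v, v < b → ar K L (c * b + v) = i := by
    intro v hv
    unfold ar at hc ⊢
    rw [div_block hb (h.Gs_dvd hi) hv, hc]
  have htau : ∀ v, v < b → tau K L P (c * b + v) = t0 := by
    intro v hv
    rw [ht0]
    unfold tau
    rw [har v hv, hc, div_block hb (h.d1 i hi) hv]
  have hw : ∀ v, v < b → wd K G g L s P (c * b + v) = if v < g * s i then t0 else !t0 := by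
    intro v hv
    unfold wd
    rw [har v hv, htau v hv, ← hbdef, mod_block hv]
  have hgs : g * s i ≤ b := Nat.mul_le_mul_right _ (by have := h.hG; omega)
  obtain ⟨d, hd⟩ : ∃ d, b = g * s i + d := ⟨b - g * s i, by omega⟩
  have e1 : ∑ v ∈ range b, dF K G g L s P β (c * b + v) =
      ∑ v ∈ range b, (if v < g * s i then qq G g t0 t0 β else qq G g t0 (!t0) β) - b * mu G g := by
    have : ∀ v ∈ range b, dF K G g L s P β (c * b + v) =
        (if v < g * s i then qq G g t0 t0 β else qq G g t0 (!t0) β) - mu G g := by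
      intro v hv
      have hv' := mem_range.mp hv
      unfold dF
      rw [htau v hv', hw v hv']
      split_ifs <;> rfl
    rw [Finset.sum_congr rfl this, Finset.sum_sub_distrib]
    simp
  rw [e1]
  have e2 : ∑ v ∈ range b, (if v < g * s i then qq G g t0 t0 β else qq G g t0 (!t0) β) =
      (g * s i : ℕ) * qq G g t0 t0 β + d * qq G g t0 (!t0) β := by
    rw [hd, Finset.sum_range_add]
    have a1 : ∀ v ∈ range (g * s i), (if v < g * s i then qq G g t0 t0 β else qq G g t0 (!t0) β) =
        qq G g t0 t0 β := fun v hv => if_pos (mem_range.mp hv)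
    have a2 : ∀ v ∈ range d, (if g * s i + v < g * s i then qq G g t0 t0 β else qq G g t0 (!t0) β) =
        qq G g t0 (!t0) β := fun v _ => if_neg (by omega)
    rw [Finset.sum_congr rfl a1, Finset.sum_congr rfl a2]
    simp
  rw [e2]
  have hG0 : (0 : ℝ) < G := by exact_mod_cast (by have := h.hG; omega : 0 < G)
  have hGg : (0 : ℝ) < (G : ℝ) - g := by
    have : (2 : ℝ) * g < G := by exact_mod_cast h.hG
    have : (0 : ℝ) < g := by exact_mod_cast h.hg
    linarith
  have hd' : (d : ℝ) = ((G : ℝ) - g) * s i := by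
    have : (b : ℝ) = (g * s i : ℕ) + (d : ℝ) := by exact_mod_cast hd
    rw [hbdef] at this
    push_cast at this
    linarith
  have hb' : (b : ℝ) = G * s i := by rw [hbdef]; push_cast; ring
  rw [hd', hb']
  push_cast
  unfold qq mu uu
  rcases Bool.eq_false_or_eq_true β with hβ | hβ <;> rcases Bool.eq_false_or_eq_true t0 with ht | ht <;>
    simp [hβ, ht] <;> field_simp <;> ring

theorem Tex.dH_zero (h : Tex K G g R L s P) (θ : Bool) (c i : ℕ) (hi : i < K)
    (hc : ar K L (c * (2 * P i)) = i) :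
    ∑ v ∈ range (2 * P i), dH K G g L s P θ (c * (2 * P i) + v) = 0 := by
  have hP := h.P_pos hi
  have hb : 0 < 2 * P i := by omega
  have har : ∀ v, v < 2 * P i → ar K L (c * (2 * P i) + v) = i := by
    intro v hv
    unfold ar at hc ⊢
    rw [div_block hb (h.d2 i hi) hv, hc]
  rw [show 2 * P i = P i + P i by ring, Finset.sum_range_add, ← Finset.sum_add_distrib]
  apply Finset.sum_eq_zero
  intro v hv
  have hv' := mem_range.mp hv
  rw [show P i + P i = 2 * P i by ring]
  set z := c * (2 * P i) + v with hz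
  have hz2 : c * (2 * P i) + (P i + v) = z + P i := by rw [hz]; ring
  rw [hz2]
  have a1 : ar K L z = i := har v (by omega)
  have a2 : ar K L (z + P i) = i := by
    rw [← hz2]; exact har (P i + v) (by omega)
  have t1 : tau K L P (z + P i) = !(tau K L P z) := by
    unfold tau
    rw [a1, a2, Nat.add_div_right _ hP]
    rcases Nat.mod_two_eq_zero_or_one (z / P i) with h0 | h0
    · have : (z / P i + 1) % 2 = 1 := by omega
      simp [h0, this]
    · have : (z / P i + 1) % 2 = 0 := by omega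
      simp [h0, this]
  have w1 : wd K G g L s P (z + P i) = !(wd K G g L s P z) := by
    unfold wd
    rw [a1, a2, t1]
    obtain ⟨q, hq⟩ := h.d1 i hi
    have : (z + P i) % (G * s i) = z % (G * s i) := by
      rw [hq, Nat.add_mul_mod_self_left]
    rw [this]
    split_ifs <;> simp
  unfold dH
  rw [w1]
  rcases Bool.eq_false_or_eq_true θ with hθ | hθ <;>
    rcases Bool.eq_false_or_eq_true (wd K G g L s P z) with hw | hw <;> simp [hθ, hw] <;> ring

theorem Tex.SF_bound (h : Tex K G g R L s P) (β : Bool) (z : ℕ) :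
    |SF K G g L s P β z| ≤ (G * s (ar K L z) : ℕ) ∧ |SF K G g L s P β (z + 1)| ≤ (G * s (ar K L z) : ℕ) :=
  prefix_bound K L (fun i => G * s i) (dF K G g L s P β) h.hK h.hL (fun _ hi => h.Gs_pos hi)
    (fun _ hi => h.Gs_dvd hi) (fun c i hi hc => h.dF_zero β c i hi hc) (h.dF_le β) z

theorem Tex.SH_bound (h : Tex K G g R L s P) (θ : Bool) (z : ℕ) :
    |SH K G g L s P θ z| ≤ (2 * P (ar K L z) : ℕ) ∧ |SH K G g L s P θ (z + 1)| ≤ (2 * P (ar K L z) : ℕ) :=
  prefix_bound K L (fun i => 2 * P i) (dH K G g L s P θ) h.hK h.hL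
    (fun _ hi => by have := h.P_pos hi; omega)
    (fun _ hi => h.d2 _ hi) (fun c i hi hc => h.dH_zero θ c i hi hc) (h.dH_le θ) z

end Pool.Agent.H95.NU
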